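import Pool.Agent.Y764.R10.Mb

/-!
Job R10-FMO, part 3: elementary estimates.
-/

set_option autoImplicit false

namespace Pool.Agent.Y764.R10

open Finset
open Pool.Agent.Y766.R10 (WG ww mw)

theorem sum_inv_sqrt (K : ℕ) : ∑ j ∈ Icc 1 K, 1 / Real.sqrt j ≤ 2 * Real.sqrt K := by
  induction K with
  | zero => simp
  | succ K ih =>
    rw [Finset.sum_Icc_succ_top (by omega)]
    have h1 : 0 < Real.sqrt ((K + 1 : ℕ) : ℝ) := Real.sqrt_pos.2 (by positivity)
    have h2 : Real.sqrt (K : ℝ) ≤ Real.sqrt ((K + 1 : ℕ) : ℝ) :=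
      Real.sqrt_le_sqrt (by push_cast; linarith)
    have h3 : Real.sqrt (K : ℝ) ^ 2 = K := Real.sq_sqrt (by positivity)
    have h4 : Real.sqrt ((K + 1 : ℕ) : ℝ) ^ 2 = K + 1 := by
      rw [Real.sq_sqrt (by positivity)]; push_cast; rfl
    have h5 : 1 / Real.sqrt ((K + 1 : ℕ) : ℝ) ≤
        2 * Real.sqrt ((K + 1 : ℕ) : ℝ) - 2 * Real.sqrt (K : ℝ) := by
      rw [div_le_iff₀ h1]
      nlinarith [Real.sqrt_nonneg (K : ℝ)]
    linarith

/-- sums of `1 / √n` over a set in one residue class mod `d` -/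
theorem class_sqrt (d N : ℕ) (hd : 1 ≤ d) (A : ℝ) (hA : 0 < A) (S : Finset ℕ)
    (hS : ∀ n ∈ S, 1 ≤ n ∧ n ≤ N ∧ A ≤ n) (hcl : ∀ n ∈ S, ∀ n' ∈ S, n % d = n' % d) :
    ∑ n ∈ S, 1 / Real.sqrt n ≤ 1 / Real.sqrt A + 2 * Real.sqrt N / d := by
  classical
  have hdr : (0 : ℝ) < d := by exact_mod_cast hd
  have hsA : 0 < Real.sqrt A := Real.sqrt_pos.2 hA
  rw [← Finset.sum_filter_add_sum_filter_not S (fun n => n < d)]
  apply add_le_add
  · have hcard : (S.filter (fun n => n < d)).card ≤ 1 := by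
      rw [Finset.card_le_one]
      intro a ha b hb
      rw [mem_filter] at ha hb
      have := hcl a ha.1 b hb.1
      rwa [Nat.mod_eq_of_lt ha.2, Nat.mod_eq_of_lt hb.2] at this
    calc ∑ n ∈ S.filter (fun n => n < d), 1 / Real.sqrt n ≤
        ∑ n ∈ S.filter (fun n => n < d), 1 / Real.sqrt A := by
          apply Finset.sum_le_sum
          intro n hn
          rw [mem_filter] at hn
          exact one_div_le_one_div_of_le hsA (Real.sqrt_le_sqrt (hS n hn.1).2.2)
      _ = ((S.filter (fun n => n < d)).card : ℝ) * (1 / Real.sqrt A) := by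
          rw [Finset.sum_const, nsmul_eq_mul]
      _ ≤ 1 * (1 / Real.sqrt A) := by
          apply mul_le_mul_of_nonneg_right _ (by positivity)
          exact_mod_cast hcard
      _ = _ := one_mul _
  · have hinj : Set.InjOn (fun n => n / d) (S.filter (fun n => ¬ n < d) : Set ℕ) := by
      intro a ha b hb hab
      simp only [coe_filter, Set.mem_ofPred_eq] at ha hb
      simp only at hab
      have := hcl a ha.1 b hb.1
      rw [← Nat.mod_add_div a d, ← Nat.mod_add_div b d, hab, this]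
    calc ∑ n ∈ S.filter (fun n => ¬ n < d), 1 / Real.sqrt n ≤
        ∑ n ∈ S.filter (fun n => ¬ n < d),
          1 / Real.sqrt d * (1 / Real.sqrt ((n / d : ℕ) : ℝ)) := by
          apply Finset.sum_le_sum
          intro n hn
          rw [mem_filter, not_lt] at hn
          have h1 : 1 ≤ n / d := Nat.div_pos hn.2 (by omega)
          have h2 : (d : ℝ) * ((n / d : ℕ) : ℝ) ≤ n := by
            exact_mod_cast Nat.mul_div_le n d
          have h1r : (0 : ℝ) < ((n / d : ℕ) : ℝ) := by exact_mod_cast h1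
          rw [div_mul_div_comm, one_mul, ← Real.sqrt_mul hdr.le]
          apply one_div_le_one_div_of_le
          · exact Real.sqrt_pos.2 (by positivity)
          · exact Real.sqrt_le_sqrt h2
      _ = ∑ j ∈ (S.filter (fun n => ¬ n < d)).image (fun n => n / d),
          1 / Real.sqrt d * (1 / Real.sqrt (j : ℝ)) := by
          rw [Finset.sum_image hinj]
      _ ≤ ∑ j ∈ Icc 1 (N / d), 1 / Real.sqrt d * (1 / Real.sqrt (j : ℝ)) := by
          apply Finset.sum_le_sum_of_subset_of_nonneg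
          · intro j hj
            rw [mem_image] at hj
            obtain ⟨n, hn, rfl⟩ := hj
            rw [mem_filter, not_lt] at hn
            rw [mem_Icc]
            exact ⟨Nat.div_pos hn.2 (by omega), Nat.div_le_div_right (hS n hn.1).2.1⟩
          · intro j _ _
            positivity
      _ = 1 / Real.sqrt d * ∑ j ∈ Icc 1 (N / d), 1 / Real.sqrt (j : ℝ) := by
          rw [Finset.mul_sum]
      _ ≤ 1 / Real.sqrt d * (2 * Real.sqrt ((N : ℝ) / d)) := by
          apply mul_le_mul_of_nonneg_left _ (by positivity)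
          refine (sum_inv_sqrt _).trans ?_
          apply mul_le_mul_of_nonneg_left _ (by norm_num)
          exact Real.sqrt_le_sqrt Nat.cast_div_le
      _ = 2 * Real.sqrt N / d := by
          rw [Real.sqrt_div (by positivity)]
          have h3 : Real.sqrt d * Real.sqrt d = d := Real.mul_self_sqrt hdr.le
          have h4 : 0 < Real.sqrt (d : ℝ) := Real.sqrt_pos.2 hdr
          rw [show 1 / Real.sqrt (d : ℝ) * (2 * (Real.sqrt N / Real.sqrt d)) =
            2 * Real.sqrt N / (Real.sqrt d * Real.sqrt d) by field_simp, h3]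

theorem norm_mw (q κ : ℝ) (hq : 1 < q) (hκ : 0 < κ) (l : ℕ) (hl : 1 ≤ l) :
    ‖((mw q κ l : ℝ) : ℂ)‖ ≤ 1 := by
  rw [Complex.norm_real, Real.norm_eq_abs]
  unfold mw
  split_ifs with h
  · have h1 : |((ArithmeticFunction.moebius l : ℤ) : ℝ)| ≤ 1 := by
      exact_mod_cast ArithmeticFunction.abs_moebius_le_one
    have hlr : (0 : ℝ) < l := by exact_mod_cast hl
    have hLq : 0 < Real.log q := Real.log_pos hq
    have h2 : Real.log l ≤ κ * Real.log q := by
      rw [← Real.log_rpow (by linarith)]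
      exact Real.log_le_log hlr h
    have h3 : 0 ≤ Real.log l := Real.log_natCast_nonneg l
    have h4 : |1 - Real.log l / (κ * Real.log q)| ≤ 1 := by
      have h5 : Real.log l / (κ * Real.log q) ≤ 1 := by
        rw [div_le_one (by positivity)]; exact h2
      have h6 : 0 ≤ Real.log l / (κ * Real.log q) := by positivity
      rw [abs_le]; constructor <;> linarith
    rw [abs_mul]
    calc _ ≤ 1 * (1 : ℝ) := mul_le_mul h1 h4 (abs_nonneg _) zero_le_one
      _ = 1 := one_mul 1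
  · simp

theorem norm_cpow (n : ℕ) (hn : 1 ≤ n) (t : ℝ) :
    ‖(n : ℂ) ^ (-(1 / 2 + (t : ℂ) * Complex.I))‖ = 1 / Real.sqrt n := by
  rw [Complex.norm_natCast_cpow_of_pos (by omega)]
  have : (-(1 / 2 + (t : ℂ) * Complex.I)).re = -(1 / 2 : ℝ) := by simp
  rw [this, Real.rpow_neg (by positivity), ← Real.sqrt_eq_rpow, one_div]

/-- the coefficient `a_n` -/
noncomputable def aa (q t : ℝ) (G : ℝ → ℂ) (n : ℕ) : ℂ :=
  G (Real.log n / Real.log q) * (n : ℂ) ^ (-(1 / 2 + (t : ℂ) * Complex.I))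

/-- the coefficient `b_l` -/
noncomputable def bb (q κ t : ℝ) (l : ℕ) : ℂ :=
  (mw q κ l : ℂ) * (l : ℂ) ^ (-(1 / 2 + (t : ℂ) * Complex.I))

theorem norm_aa {C : ℝ} {G : ℝ → ℂ} (hG : WG C G) (q t : ℝ) (n : ℕ) (hn : 1 ≤ n) :
    ‖aa q t G n‖ ≤ C * (1 / Real.sqrt n) := by
  unfold aa
  rw [norm_mul, norm_cpow n hn]
  exact mul_le_mul_of_nonneg_right (hG.b0 _) (by positivity)

theorem aa_zero {G : ℝ → ℂ} {κ q t : ℝ} (hq : 1 < q) (hG0 : ∀ v, 1 / 2 + κ ≤ v → G v = 0)
    (n : ℕ) (hn : q ^ (1 / 2 + κ) ≤ n) : aa q t G n = 0 := by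
  unfold aa
  rw [hG0, zero_mul]
  have hLq : 0 < Real.log q := Real.log_pos hq
  rw [le_div_iff₀ hLq, ← Real.log_rpow (by linarith)]
  exact Real.log_le_log (Real.rpow_pos_of_pos (by linarith) _) hn

theorem norm_bb {q κ : ℝ} (hq : 1 < q) (hκ : 0 < κ) (t : ℝ) (l : ℕ) (hl : 1 ≤ l) :
    ‖bb q κ t l‖ ≤ 1 / Real.sqrt l := by
  unfold bb
  rw [norm_mul, norm_cpow l hl]
  calc _ ≤ 1 * (1 / Real.sqrt l) :=
        mul_le_mul_of_nonneg_right (norm_mw q κ hq hκ l hl) (by positivity)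
    _ = _ := one_mul _

theorem sum_box (Y N d : ℕ) (y X E C' : ℝ) (hd : 1 ≤ d) (hC' : 0 ≤ C') (hY : (Y : ℝ) ≤ y)
    (hE : 0 ≤ E) (A : ℕ → ℝ) (hA : ∀ l ∈ Icc 1 Y, 0 < A l)
    (hAE : ∀ l ∈ Icc 1 Y, 1 / Real.sqrt l * (1 / Real.sqrt (A l)) ≤ E) (hX : 0 ≤ X)
    (f : ℕ → ℕ → ℝ) (P : ℕ → ℕ → Prop)
    (hf : ∀ n ∈ Icc 1 N, ∀ l ∈ Icc 1 Y, f n l ≤ C' * (1 / Real.sqrt n * (1 / Real.sqrt l)))
    (hf0 : ∀ n ∈ Icc 1 N, ∀ l ∈ Icc 1 Y, ¬ P n l → f n l ≤ 0)
    (hP : ∀ n ∈ Icc 1 N, ∀ l ∈ Icc 1 Y, P n l → (n : ℝ) ≤ X ∧ A l ≤ n)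
    (hP2 : ∀ n ∈ Icc 1 N, ∀ n' ∈ Icc 1 N, ∀ l ∈ Icc 1 Y, P n l → P n' l → n % d = n' % d) :
    ∑ n ∈ Icc 1 N, ∑ l ∈ Icc 1 Y, f n l ≤ C' * (y * (E + 2 * Real.sqrt X / d)) := by
  classical
  rw [Finset.sum_comm]
  have hdr : (0 : ℝ) < d := by exact_mod_cast hd
  have h1 : ∀ l ∈ Icc 1 Y, ∑ n ∈ Icc 1 N, f n l ≤ C' * (E + 2 * Real.sqrt X / d) := by
    intro l hl
    have hl1 : (1 : ℝ) ≤ Real.sqrt l := by
      rw [Real.one_le_sqrt]; exact_mod_cast (mem_Icc.1 hl).1
    have hl0 : (0 : ℝ) < Real.sqrt l := by linarith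
    obtain ⟨S, hS⟩ : ∃ S, S = (Icc 1 N).filter (fun n => P n l) := ⟨_, rfl⟩
    have h2 := class_sqrt d ⌊X⌋₊ hd (A l) (hA l hl) S
      (by
        intro n hn
        rw [hS, mem_filter] at hn
        obtain ⟨h3, h4⟩ := hP n hn.1 l hl hn.2
        exact ⟨(mem_Icc.1 hn.1).1, Nat.le_floor h3, h4⟩)
      (by
        intro n hn n' hn'
        rw [hS, mem_filter] at hn hn'
        exact hP2 n hn.1 n' hn'.1 l hl hn.2 hn'.2)
    have h3 : Real.sqrt (⌊X⌋₊ : ℝ) ≤ Real.sqrt X := Real.sqrt_le_sqrt (Nat.floor_le hX)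
    calc ∑ n ∈ Icc 1 N, f n l ≤ ∑ n ∈ S, f n l := by
          rw [hS, ← Finset.sum_filter_add_sum_filter_not (Icc 1 N) (fun n => P n l)]
          have : ∑ n ∈ (Icc 1 N).filter (fun n => ¬ P n l), f n l ≤ 0 := by
            apply Finset.sum_nonpos
            intro n hn
            rw [mem_filter] at hn
            exact hf0 n hn.1 l hl hn.2
          linarith
      _ ≤ ∑ n ∈ S, C' * (1 / Real.sqrt n * (1 / Real.sqrt l)) := by
          apply Finset.sum_le_sum
          intro n hn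
          rw [hS, mem_filter] at hn
          exact hf n hn.1 l hl
      _ = C' * (1 / Real.sqrt l * ∑ n ∈ S, 1 / Real.sqrt n) := by
          rw [Finset.mul_sum, Finset.mul_sum]
          refine Finset.sum_congr rfl fun n _ => ?_
          ring
      _ ≤ C' * (1 / Real.sqrt l * (1 / Real.sqrt (A l) + 2 * Real.sqrt X / d)) := by
          apply mul_le_mul_of_nonneg_left _ hC'
          apply mul_le_mul_of_nonneg_left _ (by positivity)
          refine h2.trans ?_
          apply add_le_add le_rfl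
          apply div_le_div_of_nonneg_right _ hdr.le
          linarith
      _ ≤ C' * (E + 2 * Real.sqrt X / d) := by
          apply mul_le_mul_of_nonneg_left _ hC'
          rw [mul_add]
          apply add_le_add (hAE l hl)
          have h5 : 1 / Real.sqrt l ≤ 1 := by rw [div_le_one hl0]; exact hl1
          calc 1 / Real.sqrt l * (2 * Real.sqrt X / d) ≤ 1 * (2 * Real.sqrt X / d) :=
                mul_le_mul_of_nonneg_right h5 (by positivity)
            _ = _ := one_mul _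
  calc ∑ l ∈ Icc 1 Y, ∑ n ∈ Icc 1 N, f n l ≤ ∑ l ∈ Icc 1 Y, C' * (E + 2 * Real.sqrt X / d) :=
        Finset.sum_le_sum h1
    _ = Y * (C' * (E + 2 * Real.sqrt X / d)) := by
        rw [Finset.sum_const, nsmul_eq_mul, Nat.card_Icc]; simp
    _ ≤ y * (C' * (E + 2 * Real.sqrt X / d)) := by
        apply mul_le_mul_of_nonneg_right hY
        positivity
    _ = _ := by ring

end Pool.Agent.Y764.R10
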