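import Pool.Agent.Y764.R10.An

/-!
Job R10-FMO, part 4: the two parts of the first moment, bounded.
-/

set_option autoImplicit false

namespace Pool.Agent.Y764.R10

open Finset
open Pool.Agent.Y766.R10 (WG ww mw)

theorem norm_term {C : ℝ} {G : ℝ → ℂ} (hG : WG C G) {q κ : ℝ} (hq : 1 < q) (hκ : 0 < κ) (t : ℝ)
    (n l : ℕ) (hn : 1 ≤ n) (hl : 1 ≤ l) (k : ℂ) (B : ℝ) (hk : ‖k‖ ≤ B) :
    ‖aa q t G n * bb q κ t l * k‖ ≤ C * B * (1 / Real.sqrt n * (1 / Real.sqrt l)) := by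
  have hC : 0 ≤ C := le_trans (norm_nonneg _) (hG.b0 0)
  have hB : 0 ≤ B := le_trans (norm_nonneg _) hk
  rw [norm_mul, norm_mul]
  calc _ ≤ (C * (1 / Real.sqrt n)) * (1 / Real.sqrt l) * B :=
        mul_le_mul (mul_le_mul (norm_aa hG q t n hn) (norm_bb hq hκ t l hl) (norm_nonneg _)
          (by positivity)) hk (norm_nonneg _) (by positivity)
    _ = _ := by ring

/-- the first part, one sign -/
theorem partN {C : ℝ} {G : ℝ → ℂ} (hG : WG C G) {q κ : ℝ} (hq : 1 < q) (hκ : 0 < κ) (t : ℝ)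
    (hG0 : ∀ v, 1 / 2 + κ ≤ v → G v = 0) (d N : ℕ) (hd : 3 ≤ d) (ε : ℤ)
    (hε : ε = 1 ∨ ε = -1) (K : ℕ → ℕ → ℂ) (B1 : ℝ) (hK : ∀ n l, ‖K n l‖ ≤ B1)
    (hK0 : ∀ n l, K n l ≠ 0 → (d : ℤ) ∣ n * l - ε) (hK1 : K 1 1 = 0) :
    ‖∑ n ∈ Icc 1 N, ∑ l ∈ Icc 1 ⌊q ^ κ⌋₊, aa q t G n * bb q κ t l * K n l‖ ≤
      C * B1 * (q ^ κ * (Real.sqrt (2 / d) + 2 * Real.sqrt (q ^ (1 / 2 + κ)) / d)) := by
  classical
  have hC : 0 ≤ C := le_trans (norm_nonneg _) (hG.b0 0)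
  have hB : 0 ≤ B1 := le_trans (norm_nonneg _) (hK 0 0)
  have hq0 : 0 < q := by linarith
  have hdr : (0 : ℝ) < d := by exact_mod_cast (by omega : 0 < d)
  refine (norm_sum_le _ _).trans ((Finset.sum_le_sum fun n _ => norm_sum_le _ _).trans ?_)
  have hX : 0 ≤ q ^ (1 / 2 + κ) := (Real.rpow_pos_of_pos hq0 _).le
  have hy : 0 ≤ q ^ κ := (Real.rpow_pos_of_pos hq0 _).le
  apply sum_box ⌊q ^ κ⌋₊ N d (q ^ κ) (q ^ (1 / 2 + κ)) (Real.sqrt (2 / d)) (C * B1)
    (by omega) (by positivity) (Nat.floor_le hy) (by positivity)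
    (fun l => (d : ℝ) / (2 * l))
    (P := fun n l => K n l ≠ 0 ∧ aa q t G n ≠ 0)
  · intro l hl
    have : (0 : ℝ) < l := by exact_mod_cast (mem_Icc.1 hl).1
    positivity
  · intro l hl
    have hl0 : (0 : ℝ) < l := by exact_mod_cast (mem_Icc.1 hl).1
    rw [div_mul_div_comm, one_mul, ← Real.sqrt_mul hl0.le]
    rw [show (l : ℝ) * ((d : ℝ) / (2 * l)) = d / 2 by field_simp]
    rw [show (2 : ℝ) / d = 1 / (d / 2) by field_simp, Real.sqrt_div zero_le_one, Real.sqrt_one]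
  · exact hX
  · intro n hn l hl
    exact norm_term hG hq hκ t n l (mem_Icc.1 hn).1 (mem_Icc.1 hl).1 _ _ (hK n l)
  · intro n _ l _ hnot
    rw [not_and_or, not_not, not_not] at hnot
    rcases hnot with h | h
    · rw [h, mul_zero, norm_zero]
    · rw [h, zero_mul, zero_mul, norm_zero]
  · intro n hn l hl ⟨h1, h2⟩
    have hn1 := (mem_Icc.1 hn).1
    have hl1 := (mem_Icc.1 hl).1
    constructor
    · by_contra hcon
      exact h2 (aa_zero hq hG0 n (not_le.1 hcon).le)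
    · have h3 := hK0 n l h1
      have hne : ¬ (n = 1 ∧ l = 1) := by
        rintro ⟨rfl, rfl⟩
        exact h1 hK1
      have h4 : 2 ≤ n * l := by
        by_contra hcon
        apply hne
        have h5 : n * l = 1 := by
          have := Nat.mul_le_mul hn1 hl1
          omega
        exact ⟨Nat.eq_one_of_mul_eq_one_right h5, Nat.eq_one_of_mul_eq_one_left h5⟩
      have h4z : (2 : ℤ) ≤ n * l := by exact_mod_cast h4
      have h5 : (d : ℤ) ≤ n * l - ε := by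
        apply Int.le_of_dvd _ h3
        rcases hε with h | h <;> rw [h] <;> linarith
      have h6 : (d : ℤ) ≤ 2 * (n * l) := by
        rcases hε with h | h <;> rw [h] at h5 <;> linarith
      have hl0 : (0 : ℝ) < l := by exact_mod_cast hl1
      rw [div_le_iff₀ (by positivity)]
      have h7 : (d : ℝ) ≤ 2 * (n * l) := by exact_mod_cast h6
      linarith
  · intro n hn n' hn' l hl ⟨h1, _⟩ ⟨h2, _⟩
    have h3 := hK0 n l h1
    have h4 := hK0 n' l h2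
    have h5 : (d : ℤ) ∣ (n - n') * l := by
      have := dvd_sub h3 h4
      have e : (n * l - ε - (n' * l - ε) : ℤ) = (n - n') * l := by ring
      rwa [e] at this
    have hcop : IsCoprime (d : ℤ) (l : ℤ) := by
      obtain ⟨k, hk⟩ := h3
      rcases hε with h | h
      · exact ⟨-k, n, by rw [h] at hk; linear_combination hk⟩
      · exact ⟨k, -n, by rw [h] at hk; linear_combination -hk⟩
    have h6 : (d : ℤ) ∣ n - n' := hcop.dvd_of_dvd_mul_right h5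
    have h7 : (n : ℤ) % d = (n' : ℤ) % d :=
      Int.emod_eq_emod_iff_emod_sub_eq_zero.2 (Int.emod_eq_zero_of_dvd h6)
    exact_mod_cast h7

/-- the second part: large `n` -/
theorem partM1 {C : ℝ} {G : ℝ → ℂ} (hG : WG C G) {q κ : ℝ} (hq : 1 < q) (hκ : 0 < κ) (t : ℝ)
    (hG0 : ∀ v, 1 / 2 + κ ≤ v → G v = 0) (d N : ℕ) (hd : 3 ≤ d)
    (h : ℕ → ℕ → ℂ) (A' : ℤ) (B0 : ℝ) (hb : ∀ n l, ‖h n l‖ ≤ B0)
    (h0 : ∀ n l, h n l ≠ 0 → (d : ℤ) ∣ n - A' * l) :
    ∑ n ∈ Icc 1 N, ∑ l ∈ Icc 1 ⌊q ^ κ⌋₊, (if (d : ℝ) / (2 * q ^ κ) < n then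
      ‖aa q t G n * bb q κ t l * h n l‖ else 0) ≤
      C * B0 * (q ^ κ * (Real.sqrt (2 * q ^ κ / d) + 2 * Real.sqrt (q ^ (1 / 2 + κ)) / d)) := by
  classical
  have hC : 0 ≤ C := le_trans (norm_nonneg _) (hG.b0 0)
  have hB : 0 ≤ B0 := le_trans (norm_nonneg _) (hb 0 0)
  have hq0 : 0 < q := by linarith
  have hdr : (0 : ℝ) < d := by exact_mod_cast (by omega : 0 < d)
  have hX : 0 ≤ q ^ (1 / 2 + κ) := (Real.rpow_pos_of_pos hq0 _).le
  have hy : 0 < q ^ κ := Real.rpow_pos_of_pos hq0 _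
  apply sum_box ⌊q ^ κ⌋₊ N d (q ^ κ) (q ^ (1 / 2 + κ)) (Real.sqrt (2 * q ^ κ / d)) (C * B0)
    (by omega) (by positivity) (Nat.floor_le hy.le) (by positivity)
    (fun l => (d : ℝ) / (2 * q ^ κ))
    (P := fun n l => (d : ℝ) / (2 * q ^ κ) < n ∧ h n l ≠ 0 ∧ aa q t G n ≠ 0)
  · intro l hl
    positivity
  · intro l hl
    have hl1 : (1 : ℝ) ≤ Real.sqrt l := by
      rw [Real.one_le_sqrt]; exact_mod_cast (mem_Icc.1 hl).1
    have hl0 : (0 : ℝ) < Real.sqrt l := by linarith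
    have h5 : 1 / Real.sqrt l ≤ 1 := by rw [div_le_one hl0]; exact hl1
    calc 1 / Real.sqrt l * (1 / Real.sqrt ((d : ℝ) / (2 * q ^ κ))) ≤
        1 * (1 / Real.sqrt ((d : ℝ) / (2 * q ^ κ))) :=
          mul_le_mul_of_nonneg_right h5 (by positivity)
      _ = _ := by
        rw [one_mul, show 2 * q ^ κ / (d : ℝ) = 1 / ((d : ℝ) / (2 * q ^ κ)) by field_simp,
          Real.sqrt_div zero_le_one, Real.sqrt_one]
  · exact hX
  · intro n hn l hl
    split_ifs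
    · exact norm_term hG hq hκ t n l (mem_Icc.1 hn).1 (mem_Icc.1 hl).1 _ _ (hb n l)
    · positivity
  · intro n _ l _ hnot
    split_ifs with h1
    · rw [not_and_or, not_and_or, not_not, not_not] at hnot
      rcases hnot with h | h | h
      · exact absurd h1 h
      · rw [h, mul_zero, norm_zero]
      · rw [h, zero_mul, zero_mul, norm_zero]
    · exact le_rfl
  · intro n hn l hl ⟨h1, _, h2⟩
    refine ⟨?_, h1.le⟩
    by_contra hcon
    exact h2 (aa_zero hq hG0 n (not_le.1 hcon).le)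
  · intro n hn n' hn' l hl ⟨_, h1, _⟩ ⟨_, h2, _⟩
    have h3 := h0 n l h1
    have h4 := h0 n' l h2
    have h5 : (d : ℤ) ∣ n - n' := by
      have := dvd_sub h3 h4
      have e : (n - A' * l - (n' - A' * l) : ℤ) = n - n' := by ring
      rwa [e] at this
    have h7 : (n : ℤ) % d = (n' : ℤ) % d :=
      Int.emod_eq_emod_iff_emod_sub_eq_zero.2 (Int.emod_eq_zero_of_dvd h5)
    exact_mod_cast h7

end Pool.Agent.Y764.R10
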