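import Pool.Agent.Y764.R10.An2

/-!
Job R10-FMO, part 5: the proportional terms.
-/

set_option autoImplicit false

namespace Pool.Agent.Y764.R10

open Finset
open Pool.Agent.Y766.R10 (WG ww mw)

/-- the value at proportional pairs -/
theorem prop_term {G : ℝ → ℂ} {q κ : ℝ} (hq : 1 < q) (hκ : 0 < κ) (t : ℝ)
    (n0 l0 j : ℕ) (hn0 : 1 ≤ n0) (hl0 : 1 ≤ l0) (hj : 1 ≤ j) (hy : (l0 : ℝ) * j ≤ q ^ κ) :
    (starRingEnd ℂ) (aa q t G (n0 * j)) * bb q κ t (l0 * j) =
      (starRingEnd ℂ) ((n0 : ℂ) ^ (-(1 / 2 + (t : ℂ) * Complex.I))) *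
      (l0 : ℂ) ^ (-(1 / 2 + (t : ℂ) * Complex.I)) *
      ((ArithmeticFunction.moebius l0 : ℝ) : ℂ) *
      (if Nat.Coprime j l0 then (starRingEnd ℂ) ((((ArithmeticFunction.moebius j : ℝ) / j : ℝ) : ℂ) *
        (((1 - (Real.log j / Real.log q + Real.log l0 / Real.log q) / κ : ℝ) : ℂ) *
          G (Real.log j / Real.log q + Real.log n0 / Real.log q))) else 0) := by
  have hL : 0 < Real.log q := Real.log_pos hq
  have hn0r : (0 : ℝ) < n0 := by exact_mod_cast hn0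
  have hl0r : (0 : ℝ) < l0 := by exact_mod_cast hl0
  have hjr : (0 : ℝ) < j := by exact_mod_cast hj
  unfold aa bb mw
  have hy' : ((l0 * j : ℕ) : ℝ) ≤ q ^ κ := by push_cast; exact hy
  rw [if_pos hy']
  split_ifs with hc
  · have hmu : (ArithmeticFunction.moebius (l0 * j) : ℤ) =
        ArithmeticFunction.moebius l0 * ArithmeticFunction.moebius j :=
      ArithmeticFunction.isMultiplicative_moebius.map_mul_of_coprime hc.symm
    rw [hmu]
    obtain ⟨z, hz⟩ : ∃ z : ℂ, z = -(1 / 2 + (t : ℂ) * Complex.I) := ⟨_, rfl⟩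
    rw [← hz]
    have e1 : ((n0 * j : ℕ) : ℂ) ^ z = (n0 : ℂ) ^ z * (j : ℂ) ^ z := by
      push_cast
      exact Complex.natCast_mul_natCast_cpow n0 j z
    have e2 : ((l0 * j : ℕ) : ℂ) ^ z = (l0 : ℂ) ^ z * (j : ℂ) ^ z := by
      push_cast
      exact Complex.natCast_mul_natCast_cpow l0 j z
    have e3 : (starRingEnd ℂ) ((j : ℂ) ^ z) * (j : ℂ) ^ z = ((1 / (j : ℝ) : ℝ) : ℂ) := by
      rw [mul_comm, Complex.mul_conj, Complex.normSq_eq_norm_sq, hz, norm_cpow j hj]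
      congr 1
      rw [div_pow, one_pow, Real.sq_sqrt hjr.le]
    have e4 : Real.log ((n0 * j : ℕ) : ℝ) / Real.log q =
        Real.log j / Real.log q + Real.log n0 / Real.log q := by
      push_cast
      rw [Real.log_mul hn0r.ne' hjr.ne']
      ring
    have e5 : Real.log ((l0 * j : ℕ) : ℝ) / (κ * Real.log q) =
        (Real.log j / Real.log q + Real.log l0 / Real.log q) / κ := by
      push_cast
      rw [Real.log_mul hl0r.ne' hjr.ne']
      field_simp
      ring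
    rw [e1, e2, e4, e5]
    generalize (1 - (Real.log j / Real.log q + Real.log l0 / Real.log q) / κ : ℝ) = lam
    generalize G (Real.log j / Real.log q + Real.log n0 / Real.log q) = W
    simp only [map_mul, Complex.conj_ofReal]
    push_cast
    have e3' : (starRingEnd ℂ) ((j : ℂ) ^ z) * (j : ℂ) ^ z = 1 / (j : ℂ) := by
      rw [e3]; push_cast; rfl
    linear_combination ((starRingEnd ℂ) W * (starRingEnd ℂ) ((n0 : ℂ) ^ z) *
      ((ArithmeticFunction.moebius l0 : ℂ) * (ArithmeticFunction.moebius j : ℂ) *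
        (lam : ℂ)) * (l0 : ℂ) ^ z) * e3'
  · have hmu : (ArithmeticFunction.moebius (l0 * j) : ℤ) = 0 := by
      apply ArithmeticFunction.moebius_eq_zero_of_not_squarefree
      intro hsq
      exact hc ((Nat.squarefree_mul_iff.1 hsq).1.symm)
    rw [hmu]
    simp

theorem partM2 {CM : ℝ} (hCM : 0 < CM) (hM : ∀ g : ℕ, 1 ≤ g → ∀ t : ℝ, 1 ≤ t →
      |∑ j ∈ (Icc 1 ⌊t⌋₊).filter (fun j => Nat.Coprime j g),
        (ArithmeticFunction.moebius j : ℝ) / j * Real.log (t / j)| ≤ CM * (g / Nat.totient g))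
    {C : ℝ} {G : ℝ → ℂ} (hG : WG C G) {q κ : ℝ} (hq : 1 < q) (hκ : 0 < κ) (hκ1 : κ ≤ 1) (t : ℝ)
    (p m N : ℕ) (hp : p.Prime) (hN : p ^ m ≤ N)
    (h : ℕ → ℕ → ℂ) (A' : ℤ) (B0 : ℝ) (hb : ∀ n l, ‖h n l‖ ≤ B0)
    (h0 : ∀ n l, h n l ≠ 0 → ¬ p ∣ n ∧ ¬ p ∣ l ∧ ((p ^ m : ℕ) : ℤ) ∣ n - A' * l)
    (h1 : ∀ n l j, ¬ p ∣ j → h (n * j) (l * j) = h n l) :
    ‖∑ n ∈ Icc 1 N, ∑ l ∈ Icc 1 ⌊q ^ κ⌋₊, (if (n : ℝ) ≤ ((p ^ m : ℕ) : ℝ) / (2 * q ^ κ) then
      (starRingEnd ℂ) (aa q t G n) * bb q κ t l * h n l else 0)‖ ≤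
      C * B0 * (q ^ κ * Real.sqrt (2 * (q ^ κ) ^ 2 / ((p ^ m : ℕ) : ℝ))) +
        8 * Real.sqrt p * CM * C * B0 / (κ * Real.log q) := by
  classical
  have hC : 0 ≤ C := le_trans (norm_nonneg _) (hG.b0 0)
  have hB : 0 ≤ B0 := le_trans (norm_nonneg _) (hb 0 0)
  have hq0 : 0 < q := by linarith
  have hL : 0 < Real.log q := Real.log_pos hq
  obtain ⟨d, hd⟩ : ∃ d : ℕ, d = p ^ m := ⟨_, rfl⟩
  have hd1 : 1 ≤ d := by rw [hd]; exact Nat.one_le_iff_ne_zero.2 (pow_ne_zero _ hp.ne_zero)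
  have hdr : (0 : ℝ) < d := by exact_mod_cast hd1
  obtain ⟨y, hy⟩ : ∃ y : ℝ, y = q ^ κ := ⟨_, rfl⟩
  have hy0 : 0 < y := by rw [hy]; exact Real.rpow_pos_of_pos hq0 _
  have hy1 : 1 ≤ y := by rw [hy]; exact Real.one_le_rpow hq.le hκ.le
  have hlogy : Real.log y = κ * Real.log q := by rw [hy, Real.log_rpow hq0]
  rw [← hd] at hN h0 ⊢
  rw [← hy]
  obtain ⟨D, hD⟩ : ∃ D : ℝ, D = (d : ℝ) / (2 * y) := ⟨_, rfl⟩
  have hD0 : 0 < D := by rw [hD]; positivity
  have hDy : D * y = d / 2 := by rw [hD]; field_simp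
  rw [← hD]
  obtain ⟨f, hf⟩ : ∃ f : ℕ × ℕ → ℂ,
    f = fun x => (starRingEnd ℂ) (aa q t G x.1) * bb q κ t x.2 * h x.1 x.2 := ⟨_, rfl⟩
  obtain ⟨box, hbox⟩ : ∃ box, box = ((Icc 1 N) ×ˢ (Icc 1 ⌊y⌋₊)).filter
    (fun x : ℕ × ℕ => (x.1 : ℝ) ≤ D) := ⟨_, rfl⟩
  have hmem : ∀ x : ℕ × ℕ, x ∈ box ↔ ((1 ≤ x.1 ∧ x.1 ≤ N) ∧ (1 ≤ x.2 ∧ x.2 ≤ ⌊y⌋₊)) ∧
      (x.1 : ℝ) ≤ D := by
    intro x
    rw [hbox, mem_filter, mem_product, mem_Icc, mem_Icc]
  have hsum : ∑ n ∈ Icc 1 N, ∑ l ∈ Icc 1 ⌊y⌋₊, (if (n : ℝ) ≤ D then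
      (starRingEnd ℂ) (aa q t G n) * bb q κ t l * h n l else 0) = ∑ x ∈ box, f x := by
    rw [hbox, Finset.sum_filter, Finset.sum_product, hf]
  rw [hsum]
  have hE1 : 0 ≤ C * B0 * (y * Real.sqrt (2 * y ^ 2 / (d : ℝ))) := by positivity
  have hE2 : 0 ≤ 8 * Real.sqrt p * CM * C * B0 / (κ * Real.log q) := by positivity
  by_cases hall : ∀ x ∈ box, f x = 0
  · rw [Finset.sum_eq_zero hall, norm_zero]
    linarith
  push Not at hall
  obtain ⟨x0, hx0, hfx0⟩ := hall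
  have hne : ∀ x, f x ≠ 0 → h x.1 x.2 ≠ 0 := by
    intro x hx hh
    apply hx
    rw [hf]
    simp only
    rw [hh, mul_zero]
  have hx0m := (hmem x0).1 hx0
  obtain ⟨hp1, hp2, hdv0⟩ := h0 _ _ (hne x0 hfx0)
  obtain ⟨gg, n0, l0, hgg, hcop, hx01, hx02⟩ : ∃ gg n0 l0 : ℕ, 0 < gg ∧ Nat.Coprime n0 l0 ∧
      x0.1 = n0 * gg ∧ x0.2 = l0 * gg := by
    obtain ⟨gg, n0, l0, h2, h3, h4, h5⟩ := Nat.exists_coprime' (m := x0.1) (n := x0.2)
      (Nat.gcd_pos_of_pos_left _ (by omega))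
    exact ⟨gg, n0, l0, h2, h3, h4, h5⟩
  have hn0 : 1 ≤ n0 := by
    rcases Nat.eq_zero_or_pos n0 with h2 | h2
    · rw [h2, zero_mul] at hx01; omega
    · exact h2
  have hl0 : 1 ≤ l0 := by
    rcases Nat.eq_zero_or_pos l0 with h2 | h2
    · rw [h2, zero_mul] at hx02; omega
    · exact h2
  have hn0r : (0 : ℝ) < n0 := by exact_mod_cast hn0
  have hl0r : (0 : ℝ) < l0 := by exact_mod_cast hl0
  have hpn0 : ¬ p ∣ n0 := fun h2 => hp1 (hx01 ▸ h2.mul_right gg)
  have hpl0 : ¬ p ∣ l0 := fun h2 => hp2 (hx02 ▸ h2.mul_right gg)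
  have hprop : ∀ x ∈ box, f x ≠ 0 → x.1 * l0 = n0 * x.2 ∧
      ∃ j, 1 ≤ j ∧ x.1 = n0 * j ∧ x.2 = l0 * j := by
    intro x hx hfx
    have hxm := (hmem x).1 hx
    obtain ⟨_, _, hdv⟩ := h0 _ _ (hne x hfx)
    have h2 : (d : ℤ) ∣ (x.1 : ℤ) * x0.2 - x0.1 * x.2 := by
      have e : (x.1 : ℤ) * x0.2 - x0.1 * x.2 = (x.1 - A' * x.2) * x0.2 -
          (x0.1 - A' * x0.2) * x.2 := by ring
      rw [e]
      exact dvd_sub (hdv.mul_right _) (hdv0.mul_right _)
    have hub : ∀ a b : ℕ, (a : ℝ) ≤ D → b ≤ ⌊y⌋₊ → (a : ℝ) * b ≤ d / 2 := by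
      intro a b ha hb
      rw [← hDy]
      exact mul_le_mul ha ((Nat.le_floor_iff hy0.le).1 hb) (by positivity) hD0.le
    have h3 := hub x.1 x0.2 hxm.2 hx0m.1.2.2
    have h4 := hub x0.1 x.2 hx0m.2 hxm.1.2.2
    have h5 : (1 : ℝ) ≤ (x.1 : ℝ) * x0.2 := by
      exact_mod_cast Nat.mul_pos hxm.1.1.1 hx0m.1.2.1
    have h6 : (1 : ℝ) ≤ (x0.1 : ℝ) * x.2 := by
      exact_mod_cast Nat.mul_pos hx0m.1.1.1 hxm.1.2.1
    have h7 : |(x.1 : ℤ) * x0.2 - x0.1 * x.2| < d := by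
      rw [abs_lt]
      constructor
      · have : (-(d : ℝ)) < (x.1 : ℝ) * x0.2 - x0.1 * x.2 := by linarith
        exact_mod_cast this
      · have : (x.1 : ℝ) * x0.2 - x0.1 * x.2 < (d : ℝ) := by linarith
        exact_mod_cast this
    have h8 := Int.eq_zero_of_abs_lt_dvd h2 h7
    have h9 : x.1 * x0.2 = x0.1 * x.2 := by
      have : (x.1 : ℤ) * x0.2 = x0.1 * x.2 := by linarith
      exact_mod_cast this
    rw [hx01, hx02] at h9
    have h10 : x.1 * l0 = n0 * x.2 := by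
      have : gg * (x.1 * l0) = gg * (n0 * x.2) := by
        calc gg * (x.1 * l0) = x.1 * (l0 * gg) := by ring
          _ = n0 * gg * x.2 := h9
          _ = gg * (n0 * x.2) := by ring
      exact Nat.eq_of_mul_eq_mul_left hgg this
    refine ⟨h10, ?_⟩
    have h11 : l0 ∣ n0 * x.2 := ⟨x.1, by rw [← h10]; ring⟩
    obtain ⟨j, hj⟩ := hcop.symm.dvd_of_dvd_mul_left h11
    refine ⟨j, ?_, ?_, hj⟩
    · rcases Nat.eq_zero_or_pos j with h12 | h12
      · rw [h12, mul_zero] at hj; omega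
      · exact h12
    · rw [hj] at h10
      have : l0 * x.1 = l0 * (n0 * j) := by
        calc l0 * x.1 = x.1 * l0 := by ring
          _ = n0 * (l0 * j) := h10
          _ = l0 * (n0 * j) := by ring
      exact Nat.eq_of_mul_eq_mul_left (by omega) this
  by_cases hcase : (n0 : ℝ) ≤ D / y
  · -- the proportional terms form a full interval
    obtain ⟨J, hJ⟩ : ∃ J, J = Icc 1 ⌊y / l0⌋₊ := ⟨_, rfl⟩
    have hJm : ∀ j, j ∈ J ↔ 1 ≤ j ∧ (l0 : ℝ) * j ≤ y := by
      intro j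
      rw [hJ, mem_Icc, Nat.le_floor_iff (by positivity), le_div_iff₀ hl0r, mul_comm]
    obtain ⟨φ, hφ⟩ : ∃ φ : ℕ → ℕ × ℕ, φ = fun j => (n0 * j, l0 * j) := ⟨_, rfl⟩
    have hinj : Set.InjOn φ (J : Set ℕ) := by
      intro a _ b _ hab
      rw [hφ] at hab
      simp only [Prod.mk.injEq] at hab
      exact Nat.eq_of_mul_eq_mul_left (by omega) hab.1
    have hsub : J.image φ ⊆ box := by
      intro x hx
      rw [mem_image] at hx
      obtain ⟨j, hj, rfl⟩ := hx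
      have hj' := (hJm j).1 hj
      have hj1r : (1 : ℝ) ≤ j := by exact_mod_cast hj'.1
      have hjy : (j : ℝ) ≤ y := by
        have : (1 : ℝ) ≤ l0 := by exact_mod_cast hl0
        nlinarith [hj'.2]
      have hnD : (n0 : ℝ) * j ≤ D := by
        calc (n0 : ℝ) * j ≤ D / y * y := mul_le_mul hcase hjy (by positivity) (by positivity)
          _ = D := by field_simp
      rw [hmem, hφ]
      simp only
      refine ⟨⟨⟨Nat.mul_pos hn0 hj'.1, ?_⟩, ⟨Nat.mul_pos hl0 hj'.1, ?_⟩⟩, ?_⟩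
      · have h2 : ((n0 * j : ℕ) : ℝ) ≤ (d : ℝ) := by
          push_cast
          refine hnD.trans ?_
          rw [hD]
          apply div_le_self hdr.le
          linarith
        exact le_trans (by exact_mod_cast h2) hN
      · apply Nat.le_floor
        push_cast
        exact hj'.2
      · push_cast; exact hnD
    have hz : ∀ x ∈ box, x ∉ J.image φ → f x = 0 := by
      intro x hx hxi
      by_contra hcon
      obtain ⟨_, j, hj1, hj2, hj3⟩ := hprop x hx hcon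
      apply hxi
      rw [mem_image]
      refine ⟨j, ?_, ?_⟩
      · rw [hJm]
        refine ⟨hj1, ?_⟩
        have h2 := ((hmem x).1 hx).1.2.2
        rw [hj3, Nat.le_floor_iff hy0.le] at h2
        push_cast at h2
        exact h2
      · rw [hφ]
        exact Prod.ext hj2.symm hj3.symm
    rw [← Finset.sum_subset hsub hz, Finset.sum_image hinj]
    obtain ⟨c0, hc0⟩ : ∃ c0 : ℂ, c0 = (starRingEnd ℂ) ((n0 : ℂ) ^
      (-(1 / 2 + (t : ℂ) * Complex.I))) * (l0 : ℂ) ^ (-(1 / 2 + (t : ℂ) * Complex.I)) *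
      ((ArithmeticFunction.moebius l0 : ℝ) : ℂ) * h n0 l0 := ⟨_, rfl⟩
    obtain ⟨Z, hZ⟩ : ∃ Z : ℕ → ℂ, Z = fun j => (((ArithmeticFunction.moebius j : ℝ) / j : ℝ) : ℂ) *
        (((1 - (Real.log j / Real.log q + Real.log l0 / Real.log q) / κ : ℝ) : ℂ) *
          G (Real.log j / Real.log q + Real.log n0 / Real.log q)) := ⟨_, rfl⟩
    have hterm : ∀ j ∈ J, f (φ j) = if Nat.Coprime j (p * l0) then c0 * (starRingEnd ℂ) (Z j)
        else 0 := by
      intro j hj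
      have hj' := (hJm j).1 hj
      rw [hf, hφ]
      simp only
      by_cases hpj : p ∣ j
      · have h2 : h (n0 * j) (l0 * j) = 0 := by
          by_contra hcon
          exact (h0 _ _ hcon).1 (hpj.mul_left n0)
        have h3 : ¬ Nat.Coprime j (p * l0) := by
          intro h4
          have h5 := Nat.Coprime.coprime_mul_right_right h4
          exact (hp.coprime_iff_not_dvd.1 h5.symm) hpj
        rw [h2, mul_zero, if_neg h3]
      · rw [h1 n0 l0 j hpj, prop_term hq hκ t n0 l0 j hn0 hl0 hj'.1 (hy ▸ hj'.2)]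
        by_cases h3 : Nat.Coprime j l0
        · have h4 : Nat.Coprime j (p * l0) :=
            Nat.Coprime.mul_right ((hp.coprime_iff_not_dvd.2 hpj).symm) h3
          rw [if_pos h3, if_pos h4, hc0, hZ]
          ring
        · have h4 : ¬ Nat.Coprime j (p * l0) := fun h5 =>
            h3 (Nat.Coprime.coprime_mul_left_right h5)
          rw [if_neg h3, if_neg h4, mul_zero, zero_mul]
    rw [Finset.sum_congr rfl hterm, ← Finset.sum_filter, ← Finset.mul_sum, ← map_sum]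
    have hl0y : (l0 : ℝ) ≤ y := by
      have h2 := hx0m.1.2.2
      rw [hx02, Nat.le_floor_iff hy0.le] at h2
      push_cast at h2
      have h3 : (1 : ℝ) ≤ gg := by exact_mod_cast hgg
      nlinarith
    have hpl1 : 1 ≤ p * l0 := Nat.mul_pos hp.pos hl0
    have key := mobG hCM hM hG hκ hκ1 hL hlogy hy0 (Real.log n0 / Real.log q) l0 hl0 hl0y
      (p * l0) hpl1
    rw [← hJ] at key
    have e1 : ∑ j ∈ J with Nat.Coprime j (p * l0), Z j = ∑ j ∈ J with Nat.Coprime j (p * l0),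
        (((ArithmeticFunction.moebius j : ℝ) / j : ℝ) : ℂ) *
        (((1 - (Real.log j / Real.log q + Real.log l0 / Real.log q) / κ : ℝ) : ℂ) *
          G (Real.log j / Real.log q + Real.log n0 / Real.log q)) := by
      rw [hZ]
    rw [← e1] at key
    have hmu1 : ‖((ArithmeticFunction.moebius l0 : ℝ) : ℂ)‖ ≤ 1 := by
      rw [Complex.norm_real, Real.norm_eq_abs]
      exact_mod_cast ArithmeticFunction.abs_moebius_le_one
    have hc0n : ‖c0‖ ≤ 1 / Real.sqrt l0 * B0 := by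
      rw [hc0, norm_mul, norm_mul, norm_mul, RCLike.norm_conj, norm_cpow n0 hn0,
        norm_cpow l0 hl0]
      have h2 : 1 / Real.sqrt (n0 : ℝ) ≤ 1 := by
        have : (1 : ℝ) ≤ Real.sqrt n0 := by
          rw [Real.one_le_sqrt]; exact_mod_cast hn0
        rw [div_le_one (by linarith)]; exact this
      calc 1 / Real.sqrt n0 * (1 / Real.sqrt l0) * ‖((ArithmeticFunction.moebius l0 : ℝ) : ℂ)‖ *
          ‖h n0 l0‖ ≤ 1 * (1 / Real.sqrt l0) * 1 * B0 :=
            mul_le_mul (mul_le_mul (mul_le_mul_of_nonneg_right h2 (by positivity)) hmu1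
              (norm_nonneg _) (by positivity)) (hb _ _) (norm_nonneg _) (by positivity)
        _ = _ := by ring
    have htot := tot_bound (p * l0) hpl1
    have hsq : Real.sqrt ((p * l0 : ℕ) : ℝ) = Real.sqrt p * Real.sqrt l0 := by
      push_cast
      rw [Real.sqrt_mul (by positivity)]
    rw [hsq] at htot
    have hsl : 0 < Real.sqrt (l0 : ℝ) := Real.sqrt_pos.2 hl0r
    rw [norm_mul, RCLike.norm_conj]
    calc ‖c0‖ * ‖∑ j ∈ J with Nat.Coprime j (p * l0), Z j‖ ≤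
        (1 / Real.sqrt l0 * B0) * (CM * (((p * l0 : ℕ) : ℝ) / Nat.totient (p * l0)) *
          (4 * C / κ) / Real.log q) :=
          mul_le_mul hc0n key (norm_nonneg _) (by positivity)
      _ ≤ (1 / Real.sqrt l0 * B0) * (CM * (2 * (Real.sqrt p * Real.sqrt l0)) *
          (4 * C / κ) / Real.log q) := by
          apply mul_le_mul_of_nonneg_left _ (by positivity)
          apply div_le_div_of_nonneg_right _ hL.le
          apply mul_le_mul_of_nonneg_right _ (by positivity)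
          exact mul_le_mul_of_nonneg_left htot hCM.le
      _ = 8 * Real.sqrt p * CM * C * B0 / (κ * Real.log q) := by
          field_simp
          ring
      _ ≤ _ := by linarith
  · -- few terms
    rw [not_le] at hcase
    have hcard : (box.filter (fun x => f x ≠ 0)).card ≤ ⌊y⌋₊ := by
      have h2 : (Icc 1 ⌊y⌋₊).card = ⌊y⌋₊ := by rw [Nat.card_Icc]; simp
      rw [← h2]
      apply Finset.card_le_card_of_injOn (fun x => x.2)
      · intro x hx
        simp only [coe_filter, Set.mem_ofPred_eq] at hx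
        simp only [coe_Icc, Set.mem_Icc]
        exact ((hmem x).1 hx.1).1.2
      · intro x hx x' hx' hxx
        simp only [coe_filter, Set.mem_ofPred_eq] at hx hx'
        simp only at hxx
        have h3 := (hprop x hx.1 hx.2).1
        have h4 := (hprop x' hx'.1 hx'.2).1
        rw [hxx, ← h4] at h3
        exact Prod.ext (Nat.eq_of_mul_eq_mul_right (by omega) h3) hxx
    have hDy0 : 0 < D / y := by positivity
    have hbd : ∀ x ∈ box.filter (fun x => f x ≠ 0), ‖f x‖ ≤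
        C * B0 * Real.sqrt (2 * y ^ 2 / d) := by
      intro x hx
      rw [mem_filter] at hx
      have hxm := (hmem x).1 hx.1
      obtain ⟨_, j, hj1, hj2, hj3⟩ := hprop x hx.1 hx.2
      have h2 : ‖f x‖ ≤ C * B0 * (1 / Real.sqrt x.1 * (1 / Real.sqrt x.2)) := by
        rw [hf]
        simp only
        rw [norm_mul, norm_mul, RCLike.norm_conj, ← norm_mul, ← norm_mul]
        exact norm_term hG hq hκ t x.1 x.2 hxm.1.1.1 hxm.1.2.1 _ _ (hb _ _)
      refine h2.trans ?_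
      apply mul_le_mul_of_nonneg_left _ (by positivity)
      have h3 : 1 / Real.sqrt (x.2 : ℝ) ≤ 1 := by
        have : (1 : ℝ) ≤ Real.sqrt x.2 := by
          rw [Real.one_le_sqrt]; exact_mod_cast hxm.1.2.1
        rw [div_le_one (by linarith)]; exact this
      have h4 : D / y ≤ x.1 := by
        refine hcase.le.trans ?_
        rw [hj2]
        exact_mod_cast Nat.le_mul_of_pos_right n0 hj1
      have h5 : 1 / Real.sqrt (x.1 : ℝ) ≤ 1 / Real.sqrt (D / y) :=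
        one_div_le_one_div_of_le (Real.sqrt_pos.2 hDy0) (Real.sqrt_le_sqrt h4)
      have h6 : 1 / Real.sqrt (D / y) = Real.sqrt (2 * y ^ 2 / d) := by
        rw [show 2 * y ^ 2 / (d : ℝ) = 1 / (D / y) by rw [hD]; field_simp,
          Real.sqrt_div zero_le_one, Real.sqrt_one]
      calc 1 / Real.sqrt (x.1 : ℝ) * (1 / Real.sqrt x.2) ≤ 1 / Real.sqrt (D / y) * 1 :=
            mul_le_mul h5 h3 (by positivity) (by positivity)
        _ = _ := by rw [mul_one, h6]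
    have h7 : ‖∑ x ∈ box, f x‖ ≤ C * B0 * (y * Real.sqrt (2 * y ^ 2 / (d : ℝ))) := by
      rw [← Finset.sum_filter_ne_zero]
      refine (norm_sum_le _ _).trans ((Finset.sum_le_sum hbd).trans ?_)
      rw [Finset.sum_const, nsmul_eq_mul]
      have h8 : ((box.filter (fun x => f x ≠ 0)).card : ℝ) ≤ y :=
        le_trans (by exact_mod_cast hcard) (Nat.floor_le hy0.le)
      calc _ ≤ y * (C * B0 * Real.sqrt (2 * y ^ 2 / (d : ℝ))) :=
            mul_le_mul_of_nonneg_right h8 (by positivity)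
        _ = _ := by ring
    linarith

end Pool.Agent.Y764.R10
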