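import Pool.Agent.Y870.R3.Phi

/-!
Job R10-FMO, part 1: averages over the even characters of a coset `χθ`, `θ` mod `p^m`.
-/

set_option autoImplicit false

namespace Pool.Agent.Y764.R10

open Finset
open Pool.Agent.Y766.R3

theorem psi_apply {q d : ℕ} (h : d ∣ q) (χ : DirichletCharacter ℂ q)
    (θ : DirichletCharacter ℂ d) (x : ZMod q) :
    (χ * DirichletCharacter.changeLevel h θ) x =
      χ x * θ (ZMod.castHom h (ZMod d) x) := by
  rw [MulChar.mul_apply]
  by_cases hx : IsUnit x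
  · obtain ⟨u, rfl⟩ := hx
    rw [DirichletCharacter.changeLevel_eq_cast_of_dvd, ZMod.castHom_apply]
  · rw [MulChar.map_nonunit χ hx, zero_mul, zero_mul]

open Classical in
/-- the even characters of the coset -/
noncomputable def EE {q d : ℕ} [NeZero d] (h : d ∣ q) (χ : DirichletCharacter ℂ q) :
    Finset (DirichletCharacter ℂ d) :=
  (univ : Finset (DirichletCharacter ℂ d)).filter
    (fun θ => (χ * DirichletCharacter.changeLevel h θ).Even)

theorem sumE {q d : ℕ} [NeZero d] (h : d ∣ q) (χ : DirichletCharacter ℂ q) (x : ZMod q) :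
    ∑ θ ∈ EE h χ, (χ * DirichletCharacter.changeLevel h θ) x =
      (d.totient : ℂ) / 2 * ((if ZMod.castHom h (ZMod d) x = 1 then χ x else 0) +
        (if ZMod.castHom h (ZMod d) x = -1 then χ (-x) else 0)) := by
  classical
  have h1 : ∑ θ ∈ EE h χ, (χ * DirichletCharacter.changeLevel h θ) x =
      ∑ θ : DirichletCharacter ℂ d, ((χ * DirichletCharacter.changeLevel h θ) x +
        (χ * DirichletCharacter.changeLevel h θ) (-x)) / 2 := by
    unfold EE
    rw [Finset.sum_filter]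
    refine Finset.sum_congr rfl fun θ _ => ?_
    split_ifs with he
    · rw [he.eval_neg]; ring
    · rcases DirichletCharacter.even_or_odd (χ * DirichletCharacter.changeLevel h θ) with h2 | h2
      · exact absurd h2 he
      · rw [h2.eval_neg]; ring
  have h3 : ∀ y : ZMod q, ∑ θ : DirichletCharacter ℂ d,
      (χ * DirichletCharacter.changeLevel h θ) y =
      if ZMod.castHom h (ZMod d) y = 1 then (d.totient : ℂ) * χ y else 0 := by
    intro y
    simp_rw [psi_apply]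
    rw [← Finset.mul_sum, DirichletCharacter.sum_characters_eq]
    split_ifs <;> ring
  rw [h1, ← Finset.sum_div, Finset.sum_add_distrib, h3, h3]
  have e : (ZMod.castHom h (ZMod d) (-x) = 1) ↔ (ZMod.castHom h (ZMod d) x = -1) := by
    rw [map_neg, neg_eq_iff_eq_neg]
  simp only [e]
  split_ifs <;> ring

/-- the sum `∑_{c = 1 mod d} χ(c) e(cx/q)` -/
noncomputable def HH {q d : ℕ} [NeZero q] (h : d ∣ q) (χ : DirichletCharacter ℂ q)
    (x : ZMod q) : ℂ :=
  ∑ c : ZMod q, if ZMod.castHom h (ZMod d) c = 1 then χ c * ZMod.stdAddChar (c * x) else 0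

theorem conj_mul_unit {q : ℕ} (ψ : DirichletCharacter ℂ q) {a b u : ZMod q} (ha : IsUnit a)
    (hu : a * u = b) : (starRingEnd ℂ) (ψ a) * ψ b = ψ u := by
  have h1 := Pool.Agent.Y870.R3.mul_conj_unit ψ ha
  rw [← hu, map_mul]
  linear_combination (ψ u) * h1

theorem gsE {q d : ℕ} [NeZero q] [NeZero d] (h : d ∣ q) (χ : DirichletCharacter ℂ q)
    {a b x : ZMod q} (ha : IsUnit a) (hb : IsUnit b) (hx : b * x = a) :
    ∑ θ ∈ EE h χ, gaussSum (χ * DirichletCharacter.changeLevel h θ) ZMod.stdAddChar *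
      ((starRingEnd ℂ) ((χ * DirichletCharacter.changeLevel h θ) a) *
        (χ * DirichletCharacter.changeLevel h θ) b) =
      (d.totient : ℂ) / 2 * (HH h χ x + HH h χ (-x)) := by
  classical
  have hxu : IsUnit x := by
    rw [← hx] at ha
    exact isUnit_of_mul_isUnit_right ha
  obtain ⟨y, hy⟩ := hxu
  have hyx : (y : ZMod q) * ((y⁻¹ : (ZMod q)ˣ) : ZMod q) = 1 := Units.mul_inv y
  have hau : a * ((y⁻¹ : (ZMod q)ˣ) : ZMod q) = b := by
    rw [← hx, ← hy, mul_assoc, hyx, mul_one]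
  have h1 : ∀ θ : DirichletCharacter ℂ d,
      gaussSum (χ * DirichletCharacter.changeLevel h θ) ZMod.stdAddChar *
      ((starRingEnd ℂ) ((χ * DirichletCharacter.changeLevel h θ) a) *
        (χ * DirichletCharacter.changeLevel h θ) b) =
      ∑ c : ZMod q, (χ * DirichletCharacter.changeLevel h θ) c * ZMod.stdAddChar (c * x) := by
    intro θ
    obtain ⟨ψ, hψ⟩ : ∃ ψ, ψ = χ * DirichletCharacter.changeLevel h θ := ⟨_, rfl⟩
    rw [← hψ, conj_mul_unit ψ ha hau]
    unfold gaussSum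
    rw [Finset.sum_mul, ← Equiv.sum_comp (Units.mulRight y)]
    refine Finset.sum_congr rfl fun c _ => ?_
    rw [Units.mulRight_apply, map_mul, ← hy]
    have h2 : ψ (y : ZMod q) * ψ ((y⁻¹ : (ZMod q)ˣ) : ZMod q) = 1 := by
      rw [← map_mul, hyx, map_one]
    linear_combination (ψ c * ZMod.stdAddChar (c * (y : ZMod q))) * h2
  rw [Finset.sum_congr rfl (fun θ _ => h1 θ), Finset.sum_comm]
  have h2 : ∀ c : ZMod q, ∑ θ ∈ EE h χ,
      (χ * DirichletCharacter.changeLevel h θ) c * ZMod.stdAddChar (c * x) =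
      (d.totient : ℂ) / 2 * ((if ZMod.castHom h (ZMod d) c = 1 then
          χ c * ZMod.stdAddChar (c * x) else 0) +
        (if ZMod.castHom h (ZMod d) c = -1 then χ (-c) * ZMod.stdAddChar (c * x) else 0)) := by
    intro c
    rw [← Finset.sum_mul, sumE]
    split_ifs <;> ring
  rw [Finset.sum_congr rfl (fun c _ => h2 c), ← Finset.mul_sum, Finset.sum_add_distrib]
  congr 1
  unfold HH
  congr 1
  rw [← Equiv.sum_comp (Equiv.neg (ZMod q))]
  refine Finset.sum_congr rfl fun c _ => ?_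
  rw [Equiv.neg_apply, neg_neg, map_neg, neg_mul, mul_neg]
  simp only [neg_inj]

theorem gsE_zero {q d : ℕ} [NeZero q] [NeZero d] (h : d ∣ q) (χ : DirichletCharacter ℂ q)
    {a b : ZMod q} (hab : ¬ IsUnit a ∨ ¬ IsUnit b) :
    ∑ θ ∈ EE h χ, gaussSum (χ * DirichletCharacter.changeLevel h θ) ZMod.stdAddChar *
      ((starRingEnd ℂ) ((χ * DirichletCharacter.changeLevel h θ) a) *
        (χ * DirichletCharacter.changeLevel h θ) b) = 0 := by
  apply Finset.sum_eq_zero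
  intro θ _
  rcases hab with hh | hh
  · rw [MulChar.map_nonunit _ hh, map_zero, zero_mul, mul_zero]
  · rw [MulChar.map_nonunit _ hh, mul_zero, mul_zero]

/-- `e(p^c w / p^ν) = e(w / p^(ν-c))` -/
theorem std_pow {p ν c : ℕ} [NeZero (p ^ ν)] [NeZero (p ^ (ν - c))] (hp : p.Prime) (hc : c ≤ ν)
    (h : p ^ (ν - c) ∣ p ^ ν) (w : ZMod (p ^ ν)) :
    (ZMod.stdAddChar ((p : ZMod (p ^ ν)) ^ c * w) : ℂ) =
      ZMod.stdAddChar (ZMod.castHom h (ZMod (p ^ (ν - c))) w) := by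
  obtain ⟨W, rfl⟩ : ∃ W : ℤ, (W : ZMod (p ^ ν)) = w := ⟨w.val, by simp⟩
  rw [map_intCast]
  have e : (p : ZMod (p ^ ν)) ^ c * (W : ZMod (p ^ ν)) =
      (((p : ℤ) ^ c * W : ℤ) : ZMod (p ^ ν)) := by push_cast; rfl
  rw [e, ZMod.stdAddChar_coe, ZMod.stdAddChar_coe]
  congr 1
  have hp0 : (p : ℂ) ≠ 0 := by exact_mod_cast hp.ne_zero
  have e2 : ((p ^ ν : ℕ) : ℂ) = (p : ℂ) ^ c * (p : ℂ) ^ (ν - c) := by
    push_cast
    rw [← pow_add]
    congr 1
    omega
  rw [e2]
  push_cast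
  field_simp

theorem card_fib {p ν c : ℕ} [NeZero (p ^ ν)] (hc : c ≤ ν)
    (h : p ^ (ν - c) ∣ p ^ ν) (S : Finset (ZMod (p ^ ν))) (b : ZMod (p ^ (ν - c)))
    (hS : ∀ x ∈ S, ZMod.castHom h (ZMod (p ^ (ν - c))) x = b) : S.card ≤ p ^ c := by
  classical
  rw [← Finset.card_range (p ^ c)]
  apply Finset.card_le_card_of_injOn (fun x => x.val / p ^ (ν - c))
  · intro x _
    have h1 := ZMod.val_lt x
    have h2 : p ^ ν = p ^ (ν - c) * p ^ c := by rw [← pow_add]; congr 1; omega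
    simp only [coe_range, Set.mem_Iio]
    apply Nat.div_lt_of_lt_mul
    rw [← h2]; exact h1
  · intro x hx y hy hxy
    simp only at hxy
    have h1 : ∀ z ∈ S, ((z.val : ℕ) : ZMod (p ^ (ν - c))) = b := by
      intro z hz
      have := hS z hz
      rw [← this]
      conv_rhs => rw [← ZMod.natCast_zmod_val z]
      rw [map_natCast]
    have h2 : x.val ≡ y.val [MOD p ^ (ν - c)] := by
      rw [← ZMod.natCast_eq_natCast_iff, h1 x hx, h1 y hy]
    have h3 : x.val = y.val := by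
      rw [← Nat.mod_add_div x.val (p ^ (ν - c)), ← Nat.mod_add_div y.val (p ^ (ν - c)), hxy, h2]
    exact ZMod.val_injective _ h3

/-- the values of a primitive character near `1` -/
theorem chi_one_add {p ν c : ℕ} [NeZero (p ^ (ν - c))] (hp : p.Prime) (hp2 : p ≠ 2)
    (hc : 1 ≤ c) (hcν : c < ν) (h2c : ν ≤ 2 * c)
    (χ : DirichletCharacter ℂ (p ^ ν)) (hχ : χ.IsPrimitive) :
    ∃ A1 : ZMod (p ^ (ν - c)), IsUnit A1 ∧ ∀ l : ℤ,
      χ ((1 + (p : ℤ) ^ c * l : ℤ) : ZMod (p ^ ν)) =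
        ZMod.stdAddChar (A1 * (l : ZMod (p ^ (ν - c)))) := by
  obtain ⟨Φ, hΦ1, hΦ2, hΦ3⟩ := Pool.Agent.Y870.R3.phi p ν c hp hp2 hc hcν χ hχ
  obtain ⟨A, hA, hΦA⟩ := hΦ3 0 (by omega) (by omega)
  have hpc : ((p : ZMod (p ^ (ν - c)))) ^ c = 0 := by
    have e : (p : ZMod (p ^ (ν - c))) ^ c = ((p ^ c : ℕ) : ZMod (p ^ (ν - c))) := by push_cast; rfl
    rw [e, ZMod.natCast_eq_zero_iff]
    exact pow_dvd_pow _ (by omega)
  have hpz : Prime (p : ℤ) := Nat.prime_iff_prime_int.1 hp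
  have h2p : ¬ (p : ℤ) ∣ 2 := by
    intro h
    have := Int.natCast_dvd_natCast.1 (show (p : ℤ) ∣ ((2 : ℕ) : ℤ) from h)
    exact hp2 ((Nat.prime_dvd_prime_iff_eq hp Nat.prime_two).1 this)
  have hval : ∀ y, Φ y = Φ 0 * ZMod.stdAddChar (A * y) := by
    intro y
    have := hΦA 0 y
    simpa using this
  have hn1 : ¬ (p : ℤ) ∣ 1 := fun h => hpz.not_isUnit (isUnit_of_dvd_one h)
  have hΦ0 : Φ 0 = 1 := by
    have h1 := hΦ2 0 1
    rw [if_neg hn1] at h1
    simp only [Pool.Agent.Y766.R3.FF, mul_zero, add_zero, Int.cast_one, map_one, mul_one,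
      Int.cast_zero, zero_mul] at h1
    exact h1.symm
  have h2u : IsUnit (((2 : ℤ) : ZMod (p ^ (ν - c)))) := Pool.Agent.Y870.R3.isUnit_int hp _ h2p
  refine ⟨A * (((2 : ℤ) : ZMod (p ^ (ν - c))))⁻¹, ?_, ?_⟩
  · apply IsUnit.mul hA
    obtain ⟨u, hu⟩ := h2u
    rw [← hu, ZMod.inv_coe_unit]
    exact Units.isUnit _
  · intro l
    have h1 := hΦ2 l 1
    rw [if_neg hn1, hval, hΦ0, one_mul] at h1
    have e1 : ((2 * 1 + (p : ℤ) ^ c * l : ℤ) : ZMod (p ^ (ν - c))) =
        ((2 : ℤ) : ZMod (p ^ (ν - c))) := by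
      push_cast
      rw [hpc]; ring
    rw [e1] at h1
    unfold Pool.Agent.Y766.R3.FF at h1
    simp only [Int.cast_one, map_one, mul_one] at h1
    rw [h1]
    congr 1
    ring

theorem HH_bound {p ν m : ℕ} [NeZero (p ^ ν)] (hp : p.Prime) (hp2 : p ≠ 2) (hm : 1 ≤ m)
    (h2 : 2 * m ≤ ν) (h : p ^ m ∣ p ^ ν) (χ : DirichletCharacter ℂ (p ^ ν))
    (hχ : χ.IsPrimitive) :
    ∃ A' : ℤ, ∀ x : ZMod (p ^ ν), ‖HH h χ x‖ ≤ (p : ℝ) ^ ((ν + 1) / 2) ∧
      (HH h χ x ≠ 0 → ZMod.castHom h (ZMod (p ^ m)) x = ((A' : ℤ) : ZMod (p ^ m))) := by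
  classical
  obtain ⟨c, hc⟩ : ∃ c, c = (ν + 1) / 2 := ⟨_, rfl⟩
  have hcν : c < ν := by omega
  have hmr : m ≤ ν - c := by omega
  rw [← hc]
  have : NeZero (p ^ (ν - c)) := ⟨pow_ne_zero _ hp.ne_zero⟩
  have : Fact p.Prime := ⟨hp⟩
  obtain ⟨A1, hA1u, hA1⟩ := chi_one_add (c := c) hp hp2 (by omega) hcν (by omega) χ hχ
  have hr : p ^ (ν - c) ∣ p ^ ν := pow_dvd_pow p (by omega)
  have hmr' : p ^ m ∣ p ^ (ν - c) := pow_dvd_pow p hmr
  obtain ⟨A', hA'⟩ : ∃ A' : ℤ, (A' : ZMod (p ^ (ν - c))) = -A1 := ⟨(-A1).val, by simp⟩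
  -- the units `1 + p^c z`
  obtain ⟨U, hU⟩ : ∃ U : ZMod (p ^ (ν - c)) → ZMod (p ^ ν),
    U = fun z => ((1 + (p : ℤ) ^ c * (z.val : ℤ) : ℤ) : ZMod (p ^ ν)) := ⟨_, rfl⟩
  have hUu : ∀ z, IsUnit (U z) := by
    intro z
    rw [hU]
    exact Pool.Agent.Y870.R3.isUnit_int hp _
      (Pool.Agent.Y870.R3.not_dvd_one_add hp (by omega) _)
  have hUm : ∀ z, ZMod.castHom h (ZMod (p ^ m)) (U z) = 1 := by
    intro z
    rw [hU]
    simp only
    rw [map_intCast]
    push_cast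
    have e : ((p : ZMod (p ^ m))) ^ c = 0 := by
      have e : (p : ZMod (p ^ m)) ^ c = ((p ^ c : ℕ) : ZMod (p ^ m)) := by push_cast; rfl
      rw [e, ZMod.natCast_eq_zero_iff]
      exact pow_dvd_pow _ (by omega)
    rw [e, zero_mul, add_zero]
  have hUχ : ∀ z, χ (U z) = ZMod.stdAddChar (A1 * z) := by
    intro z
    rw [hU]
    simp only
    rw [hA1]
    congr 2
    simp
  have hkey : ∀ x : ZMod (p ^ ν), ∀ z : ZMod (p ^ (ν - c)), HH h χ x =
      ∑ c' : ZMod (p ^ ν), if ZMod.castHom h (ZMod (p ^ m)) c' = 1 then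
        χ c' * ZMod.stdAddChar (c' * x) *
          ZMod.stdAddChar ((A1 + ZMod.castHom hr (ZMod (p ^ (ν - c))) (c' * x)) * z) else 0 := by
    intro x z
    obtain ⟨u, hu⟩ := hUu z
    unfold HH
    rw [← Equiv.sum_comp (Units.mulRight u)]
    refine Finset.sum_congr rfl fun c' _ => ?_
    rw [Units.mulRight_apply, hu, map_mul, hUm, mul_one]
    split_ifs with hc1
    · rw [map_mul, hUχ, add_mul, AddChar.map_add_eq_mul]
      have e : c' * U z * x = c' * x + (p : ZMod (p ^ ν)) ^ c * (c' * x * (z.val : ZMod (p ^ ν))) := by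
        rw [hU]; push_cast; ring
      rw [e, AddChar.map_add_eq_mul, std_pow hp hcν.le hr, map_mul (ZMod.castHom hr _) (c' * x),
        map_natCast, ZMod.natCast_zmod_val]
      ring
    · rfl
  have hsum : ∀ x : ZMod (p ^ ν), HH h χ x =
      ∑ c' : ZMod (p ^ ν), if (ZMod.castHom h (ZMod (p ^ m)) c' = 1 ∧
        A1 + ZMod.castHom hr (ZMod (p ^ (ν - c))) (c' * x) = 0) then
        χ c' * ZMod.stdAddChar (c' * x) else 0 := by
    intro x
    have hcard : ((p ^ (ν - c) : ℕ) : ℂ) ≠ 0 := by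
      exact_mod_cast pow_ne_zero _ hp.ne_zero
    have h1 : ((p ^ (ν - c) : ℕ) : ℂ) * HH h χ x = ∑ z : ZMod (p ^ (ν - c)), HH h χ x := by
      rw [Finset.sum_const, Finset.card_univ, ZMod.card, nsmul_eq_mul]
    have h3 : ((p ^ (ν - c) : ℕ) : ℂ) * HH h χ x = ((p ^ (ν - c) : ℕ) : ℂ) *
      ∑ c' : ZMod (p ^ ν), if (ZMod.castHom h (ZMod (p ^ m)) c' = 1 ∧
        A1 + ZMod.castHom hr (ZMod (p ^ (ν - c))) (c' * x) = 0) then
        χ c' * ZMod.stdAddChar (c' * x) else 0 := by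
      rw [h1, Finset.sum_congr rfl (fun z _ => hkey x z), Finset.sum_comm, Finset.mul_sum]
      refine Finset.sum_congr rfl fun c' _ => ?_
      by_cases hc1 : ZMod.castHom h (ZMod (p ^ m)) c' = 1
      · simp only [hc1, if_true, true_and]
        rw [← Finset.mul_sum]
        have h4 := AddChar.sum_mulShift
          (A1 + ZMod.castHom hr (ZMod (p ^ (ν - c))) (c' * x))
          (ZMod.isPrimitive_stdAddChar (p ^ (ν - c)))
        simp only [mul_comm _ (A1 + ZMod.castHom hr (ZMod (p ^ (ν - c))) (c' * x))] at h4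
        rw [h4, ZMod.card]
        split_ifs <;> push_cast <;> ring
      · simp only [hc1, if_false, false_and, Finset.sum_const_zero, mul_zero]
    exact mul_left_cancel₀ hcard h3
  refine ⟨A', fun x => ⟨?_, ?_⟩⟩
  · rw [hsum x, ← Finset.sum_filter]
    obtain ⟨S, hS⟩ : ∃ S, S = univ.filter (fun c' : ZMod (p ^ ν) =>
      ZMod.castHom h (ZMod (p ^ m)) c' = 1 ∧
        A1 + ZMod.castHom hr (ZMod (p ^ (ν - c))) (c' * x) = 0) := ⟨_, rfl⟩
    rw [← hS]
    have hcardS : S.card ≤ p ^ c := by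
      rcases S.eq_empty_or_nonempty with h0 | ⟨c0, hc0⟩
      · rw [h0]; simp
      · have hmem : ∀ c' ∈ S, ZMod.castHom hr (ZMod (p ^ (ν - c))) c' *
            ZMod.castHom hr (ZMod (p ^ (ν - c))) x = -A1 := by
          intro c' hc'
          rw [hS, Finset.mem_filter] at hc'
          have := hc'.2.2
          rw [map_mul] at this
          linear_combination this
        have hxu : IsUnit (ZMod.castHom hr (ZMod (p ^ (ν - c))) x) := by
          have h5 := hmem c0 hc0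
          have h6 : IsUnit (-A1) := hA1u.neg
          rw [← h5] at h6
          exact isUnit_of_mul_isUnit_right h6
        apply card_fib hcν.le hr S (ZMod.castHom hr (ZMod (p ^ (ν - c))) c0)
        intro c' hc'
        apply hxu.mul_right_cancel
        rw [hmem c' hc', hmem c0 hc0]
    refine (norm_sum_le _ _).trans ?_
    calc ∑ c' ∈ S, ‖χ c' * (ZMod.stdAddChar (c' * x) : ℂ)‖ ≤ ∑ c' ∈ S, (1 : ℝ) := by
          apply Finset.sum_le_sum
          intro c' _
          rw [norm_mul, AddChar.norm_apply, mul_one]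
          exact DirichletCharacter.norm_le_one χ _
      _ = (S.card : ℝ) := by simp
      _ ≤ ((p ^ c : ℕ) : ℝ) := by exact_mod_cast hcardS
      _ = (p : ℝ) ^ c := by push_cast; rfl
  · intro hne
    rw [hsum x] at hne
    obtain ⟨c', _, hc'⟩ := Finset.exists_ne_zero_of_sum_ne_zero hne
    have hc2 : ZMod.castHom h (ZMod (p ^ m)) c' = 1 ∧
        A1 + ZMod.castHom hr (ZMod (p ^ (ν - c))) (c' * x) = 0 := by
      by_contra hcon
      rw [if_neg hcon] at hc'
      exact hc' rfl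
    have h5 : (ZMod.castHom hmr' (ZMod (p ^ m))).comp (ZMod.castHom hr (ZMod (p ^ (ν - c)))) =
        ZMod.castHom h (ZMod (p ^ m)) := Subsingleton.elim _ _
    have h6 : ZMod.castHom hr (ZMod (p ^ (ν - c))) (c' * x) = (A' : ZMod (p ^ (ν - c))) := by
      rw [hA']; linear_combination hc2.2
    have h7 := congrArg (ZMod.castHom hmr' (ZMod (p ^ m))) h6
    rw [map_intCast, ← RingHom.comp_apply, h5, map_mul, hc2.1, one_mul] at h7
    exact h7

end Pool.Agent.Y764.R10
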