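import Pool.Agent.Y764.R10.An3
import Pool.Agent.Y764.R10.Chr

/-!
Job R10-FMO: the mollified first moment over the even characters of a coset.
-/

set_option autoImplicit false

namespace Pool.Agent.Y764.R10

open Finset
open Pool.Agent.Y766.R10 (WG ww mw AA MM)

theorem AA_eq {q : ℕ} (ψ : DirichletCharacter ℂ q) (G : ℝ → ℂ) (t : ℝ) :
    AA ψ G t = ∑ n ∈ Icc 1 q, aa q t G n * ψ (n : ZMod q) := by
  unfold AA aa
  refine Finset.sum_congr rfl fun n _ => ?_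
  ring

theorem MM_eq {q : ℕ} (ψ : DirichletCharacter ℂ q) (κ t : ℝ) :
    MM ψ κ t = ∑ l ∈ Icc 1 ⌊(q : ℝ) ^ κ⌋₊, bb q κ t l * ψ (l : ZMod q) := by
  unfold MM bb
  refine Finset.sum_congr rfl fun n _ => ?_
  ring

theorem aa_one (q t : ℝ) (G : ℝ → ℂ) : aa q t G 1 = G 0 := by
  unfold aa
  simp

theorem bb_one {q κ : ℝ} (hq : 1 < q) (hκ : 0 < κ) (t : ℝ) : bb q κ t 1 = 1 := by
  unfold bb mw
  rw [if_pos (by rw [Nat.cast_one]; exact Real.one_le_rpow hq.le hκ.le)]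
  simp

theorem first_part {q d : ℕ} [NeZero d] (h : d ∣ q) (χ : DirichletCharacter ℂ q)
    {C : ℝ} {G : ℝ → ℂ} (hG : WG C G) {κ : ℝ} (hq : 1 < (q : ℝ)) (hκ : 0 < κ) (t : ℝ)
    (hG0 : ∀ v, 1 / 2 + κ ≤ v → G v = 0) (hd : 3 ≤ d) :
    ‖∑ θ ∈ EE h χ, AA (χ * DirichletCharacter.changeLevel h θ) G t *
      MM (χ * DirichletCharacter.changeLevel h θ) κ t - (d.totient : ℂ) / 2 * G 0‖ ≤
      (d.totient : ℝ) * (C * ((q : ℝ) ^ κ * (Real.sqrt (2 / d) +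
        2 * Real.sqrt ((q : ℝ) ^ (1 / 2 + κ)) / d))) := by
  classical
  obtain ⟨kp, hkp⟩ : ∃ kp : ℕ → ℕ → ℂ, kp = fun (n l : ℕ) =>
    if ZMod.castHom h (ZMod d) ((n : ZMod q) * (l : ZMod q)) = 1 then
      χ ((n : ZMod q) * (l : ZMod q)) else 0 := ⟨_, rfl⟩
  obtain ⟨km, hkm⟩ : ∃ km : ℕ → ℕ → ℂ, km = fun (n l : ℕ) =>
    if ZMod.castHom h (ZMod d) ((n : ZMod q) * (l : ZMod q)) = -1 then
      χ (-((n : ZMod q) * (l : ZMod q))) else 0 := ⟨_, rfl⟩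
  obtain ⟨kq, hkq⟩ : ∃ kq : ℕ → ℕ → ℂ, kq = fun (n l : ℕ) =>
    if n = 1 ∧ l = 1 then 0 else kp n l := ⟨_, rfl⟩
  have hmain : ∑ θ ∈ EE h χ, AA (χ * DirichletCharacter.changeLevel h θ) G t *
      MM (χ * DirichletCharacter.changeLevel h θ) κ t =
      (d.totient : ℂ) / 2 * (∑ n ∈ Icc 1 q, ∑ l ∈ Icc 1 ⌊(q : ℝ) ^ κ⌋₊,
        aa q t G n * bb q κ t l * kp n l + ∑ n ∈ Icc 1 q, ∑ l ∈ Icc 1 ⌊(q : ℝ) ^ κ⌋₊,
        aa q t G n * bb q κ t l * km n l) := by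
    have e1 : ∀ θ : DirichletCharacter ℂ d, AA (χ * DirichletCharacter.changeLevel h θ) G t *
        MM (χ * DirichletCharacter.changeLevel h θ) κ t =
        ∑ n ∈ Icc 1 q, ∑ l ∈ Icc 1 ⌊(q : ℝ) ^ κ⌋₊, aa q t G n * bb q κ t l *
          (χ * DirichletCharacter.changeLevel h θ) ((n : ZMod q) * (l : ZMod q)) := by
      intro θ
      rw [AA_eq, MM_eq, Finset.sum_mul_sum]
      refine Finset.sum_congr rfl fun n _ => Finset.sum_congr rfl fun l _ => ?_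
      rw [map_mul]
      ring
    rw [Finset.sum_congr rfl (fun θ _ => e1 θ), Finset.sum_comm, ← Finset.sum_add_distrib,
      Finset.mul_sum]
    refine Finset.sum_congr rfl fun n _ => ?_
    rw [Finset.sum_comm, ← Finset.sum_add_distrib, Finset.mul_sum]
    refine Finset.sum_congr rfl fun l _ => ?_
    rw [← Finset.mul_sum, sumE, hkp, hkm]
    ring
  have hsplit : ∑ n ∈ Icc 1 q, ∑ l ∈ Icc 1 ⌊(q : ℝ) ^ κ⌋₊, aa q t G n * bb q κ t l * kp n l =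
      G 0 + ∑ n ∈ Icc 1 q, ∑ l ∈ Icc 1 ⌊(q : ℝ) ^ κ⌋₊, aa q t G n * bb q κ t l * kq n l := by
    have e2 : G 0 = ∑ n ∈ Icc 1 q, ∑ l ∈ Icc 1 ⌊(q : ℝ) ^ κ⌋₊,
        (if n = 1 ∧ l = 1 then aa q t G n * bb q κ t l * kp n l else 0) := by
      have hq1 : 1 ∈ Icc 1 q := by
        rw [mem_Icc]
        refine ⟨le_rfl, ?_⟩
        exact_mod_cast hq.le
      have hy1 : 1 ∈ Icc 1 ⌊(q : ℝ) ^ κ⌋₊ := by
        rw [mem_Icc]
        refine ⟨le_rfl, Nat.le_floor ?_⟩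
        rw [Nat.cast_one]
        exact Real.one_le_rpow hq.le hκ.le
      rw [Finset.sum_eq_single_of_mem 1 hq1, Finset.sum_eq_single_of_mem 1 hy1]
      · rw [if_pos ⟨rfl, rfl⟩, aa_one, bb_one hq hκ, hkp]
        simp only [Nat.cast_one, mul_one, map_one, if_true]
      · intro l _ hl
        rw [if_neg (fun h => hl h.2)]
      · intro n _ hn
        apply Finset.sum_eq_zero
        intro l _
        rw [if_neg (fun h => hn h.1)]
    rw [e2, ← Finset.sum_add_distrib]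
    refine Finset.sum_congr rfl fun n _ => ?_
    rw [← Finset.sum_add_distrib]
    refine Finset.sum_congr rfl fun l _ => ?_
    rw [hkq]
    simp only
    split_ifs <;> ring
  have hcong : ∀ (n l : ℕ) (ε : ℤ), ZMod.castHom h (ZMod d) ((n : ZMod q) * (l : ZMod q)) =
      ((ε : ℤ) : ZMod d) → (d : ℤ) ∣ n * l - ε := by
    intro n l ε h1
    rw [map_mul, map_natCast, map_natCast] at h1
    rw [← ZMod.intCast_zmod_eq_zero_iff_dvd]
    push_cast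
    rw [h1, sub_self]
  have hb1 := partN hG hq hκ t hG0 d q hd 1 (Or.inl rfl) kq 1
    (by
      intro n l
      rw [hkq, hkp]
      simp only
      split_ifs
      · simp
      · exact DirichletCharacter.norm_le_one χ _
      · simp)
    (by
      intro n l hne
      apply hcong
      rw [hkq, hkp] at hne
      simp only at hne
      split_ifs at hne with h1 h2
      · exact absurd rfl hne
      · rw [h2]; simp
      · exact absurd rfl hne)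
    (by rw [hkq]; simp)
  have hb2 := partN hG hq hκ t hG0 d q hd (-1) (Or.inr rfl) km 1
    (by
      intro n l
      rw [hkm]
      simp only
      split_ifs
      · exact DirichletCharacter.norm_le_one χ _
      · simp)
    (by
      intro n l hne
      apply hcong
      rw [hkm] at hne
      simp only at hne
      split_ifs at hne with h2
      · rw [h2]; simp
      · exact absurd rfl hne)
    (by
      rw [hkm]
      simp only
      rw [if_neg]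
      intro h1
      rw [Nat.cast_one, one_mul, map_one] at h1
      have h2 : ((2 : ℕ) : ZMod d) = 0 := by
        push_cast
        linear_combination h1
      rw [ZMod.natCast_eq_zero_iff] at h2
      have := Nat.le_of_dvd (by norm_num) h2
      omega)
  rw [hmain, hsplit]
  have e3 : (d.totient : ℂ) / 2 * (G 0 + ∑ n ∈ Icc 1 q, ∑ l ∈ Icc 1 ⌊(q : ℝ) ^ κ⌋₊,
        aa q t G n * bb q κ t l * kq n l + ∑ n ∈ Icc 1 q, ∑ l ∈ Icc 1 ⌊(q : ℝ) ^ κ⌋₊,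
        aa q t G n * bb q κ t l * km n l) - (d.totient : ℂ) / 2 * G 0 =
      ((d.totient : ℝ) / 2 : ℝ) * (∑ n ∈ Icc 1 q, ∑ l ∈ Icc 1 ⌊(q : ℝ) ^ κ⌋₊,
        aa q t G n * bb q κ t l * kq n l + ∑ n ∈ Icc 1 q, ∑ l ∈ Icc 1 ⌊(q : ℝ) ^ κ⌋₊,
        aa q t G n * bb q κ t l * km n l) := by
    push_cast
    ring
  rw [e3, norm_mul, Complex.norm_real, Real.norm_eq_abs, abs_of_nonneg (by positivity)]
  calc (d.totient : ℝ) / 2 * ‖∑ n ∈ Icc 1 q, ∑ l ∈ Icc 1 ⌊(q : ℝ) ^ κ⌋₊,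
        aa q t G n * bb q κ t l * kq n l + ∑ n ∈ Icc 1 q, ∑ l ∈ Icc 1 ⌊(q : ℝ) ^ κ⌋₊,
        aa q t G n * bb q κ t l * km n l‖ ≤ (d.totient : ℝ) / 2 * (_ + _) :=
          mul_le_mul_of_nonneg_left ((norm_add_le _ _).trans (add_le_add hb1 hb2))
            (by positivity)
    _ = _ := by ring

theorem isUnit_nat_iff {p ν : ℕ} (hp : p.Prime) (hν : 0 < ν) (n : ℕ) :
    IsUnit (n : ZMod (p ^ ν)) ↔ ¬ p ∣ n := by
  rw [ZMod.isUnit_iff_coprime, Nat.coprime_pow_right_iff hν, Nat.coprime_comm,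
    hp.coprime_iff_not_dvd]

/-- the kernel of the second part -/
noncomputable def hk {p ν m : ℕ} [NeZero (p ^ ν)] (h : p ^ m ∣ p ^ ν)
    (χ : DirichletCharacter ℂ (p ^ ν)) (ε : ℤ) (n l : ℕ) : ℂ :=
  if p ∣ n ∨ p ∣ l then 0 else
    HH h χ ((ε : ZMod (p ^ ν)) * ((n : ZMod (p ^ ν)) * (l : ZMod (p ^ ν))⁻¹))

theorem hk_mul {p ν m : ℕ} [NeZero (p ^ ν)] (hp : p.Prime) (hν : 0 < ν) (h : p ^ m ∣ p ^ ν)
    (χ : DirichletCharacter ℂ (p ^ ν)) (ε : ℤ) (n l j : ℕ) (hj : ¬ p ∣ j) :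
    hk h χ ε (n * j) (l * j) = hk h χ ε n l := by
  unfold hk
  have h1 : (p ∣ n * j ∨ p ∣ l * j) ↔ (p ∣ n ∨ p ∣ l) := by
    rw [hp.dvd_mul, hp.dvd_mul]
    tauto
  by_cases h2 : p ∣ n ∨ p ∣ l
  · rw [if_pos h2, if_pos (h1.2 h2)]
  · rw [if_neg h2, if_neg (fun h3 => h2 (h1.1 h3))]
    rw [not_or] at h2
    congr 2
    have hju := (isUnit_nat_iff hp hν j).2 hj
    have hlu := (isUnit_nat_iff hp hν l).2 h2.2
    have hlju : IsUnit ((l * j : ℕ) : ZMod (p ^ ν)) := by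
      push_cast; exact hlu.mul hju
    have h3 := ZMod.mul_inv_of_unit _ hlju
    have h4 := ZMod.mul_inv_of_unit _ hlu
    apply hlju.mul_left_cancel
    calc ((l * j : ℕ) : ZMod (p ^ ν)) * (((n * j : ℕ) : ZMod (p ^ ν)) *
        ((l * j : ℕ) : ZMod (p ^ ν))⁻¹) =
        ((n * j : ℕ) : ZMod (p ^ ν)) * (((l * j : ℕ) : ZMod (p ^ ν)) *
        ((l * j : ℕ) : ZMod (p ^ ν))⁻¹) := by ring
      _ = ((n * j : ℕ) : ZMod (p ^ ν)) * ((l : ZMod (p ^ ν)) * (l : ZMod (p ^ ν))⁻¹) := by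
          rw [h3, h4]
      _ = _ := by push_cast; ring

theorem second_part {CM : ℝ} (hCM : 0 < CM) (hM : ∀ g : ℕ, 1 ≤ g → ∀ t : ℝ, 1 ≤ t →
      |∑ j ∈ (Icc 1 ⌊t⌋₊).filter (fun j => Nat.Coprime j g),
        (ArithmeticFunction.moebius j : ℝ) / j * Real.log (t / j)| ≤ CM * (g / Nat.totient g))
    {p ν m : ℕ} [NeZero (p ^ ν)] [NeZero (p ^ m)] (hp : p.Prime) (hp3 : 3 ≤ p) (hm : 1 ≤ m)
    (h2m : 2 * m ≤ ν) (h : p ^ m ∣ p ^ ν) (χ : DirichletCharacter ℂ (p ^ ν))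
    (hχ : χ.IsPrimitive) {C : ℝ} {G : ℝ → ℂ} (hG : WG C G) {κ : ℝ}
    (hκ : 0 < κ) (hκ1 : κ ≤ 1) (t : ℝ)
    (hG0 : ∀ v, 1 / 2 + κ ≤ v → G v = 0) (γ : ℂ) (hγ : ‖γ‖ = 1) :
    ‖∑ θ ∈ EE h χ, γ * (gaussSum (χ * DirichletCharacter.changeLevel h θ) ZMod.stdAddChar /
        (Real.sqrt ((p : ℝ) ^ ν) : ℂ)) *
        (starRingEnd ℂ) (AA (χ * DirichletCharacter.changeLevel h θ) G t) *
      MM (χ * DirichletCharacter.changeLevel h θ) κ t‖ ≤
      ((p ^ m).totient : ℝ) * (Real.sqrt p * (C * (((p ^ ν : ℕ) : ℝ) ^ κ *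
        (Real.sqrt (2 * ((p ^ ν : ℕ) : ℝ) ^ κ / ((p ^ m : ℕ) : ℝ)) +
          2 * Real.sqrt (((p ^ ν : ℕ) : ℝ) ^ (1 / 2 + κ)) / ((p ^ m : ℕ) : ℝ))) +
        C * (((p ^ ν : ℕ) : ℝ) ^ κ *
          Real.sqrt (2 * (((p ^ ν : ℕ) : ℝ) ^ κ) ^ 2 / ((p ^ m : ℕ) : ℝ))) +
        8 * Real.sqrt p * CM * C / (κ * Real.log ((p ^ ν : ℕ) : ℝ)))) := by
  classical
  obtain ⟨Q, hQ⟩ : ∃ Q : ℝ, Q = ((p ^ ν : ℕ) : ℝ) := ⟨_, rfl⟩
  have hν : 0 < ν := by omega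
  have hQ1 : 1 < Q := by
    rw [hQ]
    exact_mod_cast Nat.one_lt_pow hν.ne' (by omega)
  have hC : 0 ≤ C := le_trans (norm_nonneg _) (hG.b0 0)
  have hd3 : 3 ≤ p ^ m := hp3.trans (Nat.le_self_pow (by omega) p)
  obtain ⟨A', hA'⟩ := HH_bound hp (by omega) hm h2m h χ hχ
  have hpν : ((p : ℝ) ^ ν) = Q := by rw [hQ]; push_cast; rfl
  have hpr : (0 : ℝ) < p := by exact_mod_cast hp.pos
  have hsQ : 0 < Real.sqrt Q := Real.sqrt_pos.2 (by linarith)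
  obtain ⟨B0, hB0⟩ : ∃ B0 : ℝ, B0 = (p : ℝ) ^ ((ν + 1) / 2) := ⟨_, rfl⟩
  rw [← hB0] at hA'
  have hB0p : 0 < B0 := by rw [hB0]; positivity
  have hB0s : B0 ≤ Real.sqrt p * Real.sqrt Q := by
    rw [← Real.sqrt_mul hpr.le]
    apply Real.le_sqrt_of_sq_le
    rw [hB0, ← hpν, ← pow_mul, ← pow_succ']
    apply pow_le_pow_right₀
    · exact_mod_cast hp.one_le
    · omega
  rw [← hQ, hpν]
  -- algebra
  have hmain : ∑ θ ∈ EE h χ, γ * (gaussSum (χ * DirichletCharacter.changeLevel h θ)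
        ZMod.stdAddChar / (Real.sqrt Q : ℂ)) *
        (starRingEnd ℂ) (AA (χ * DirichletCharacter.changeLevel h θ) G t) *
      MM (χ * DirichletCharacter.changeLevel h θ) κ t =
      (γ / (Real.sqrt Q : ℂ) * (((p ^ m).totient : ℂ) / 2)) *
        (∑ n ∈ Icc 1 (p ^ ν), ∑ l ∈ Icc 1 ⌊Q ^ κ⌋₊,
          (starRingEnd ℂ) (aa Q t G n) * bb Q κ t l * hk h χ 1 n l +
        ∑ n ∈ Icc 1 (p ^ ν), ∑ l ∈ Icc 1 ⌊Q ^ κ⌋₊,
          (starRingEnd ℂ) (aa Q t G n) * bb Q κ t l * hk h χ (-1) n l) := by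
    have e1 : ∀ θ : DirichletCharacter ℂ (p ^ m),
        γ * (gaussSum (χ * DirichletCharacter.changeLevel h θ)
        ZMod.stdAddChar / (Real.sqrt Q : ℂ)) *
        (starRingEnd ℂ) (AA (χ * DirichletCharacter.changeLevel h θ) G t) *
        MM (χ * DirichletCharacter.changeLevel h θ) κ t =
        ∑ n ∈ Icc 1 (p ^ ν), ∑ l ∈ Icc 1 ⌊Q ^ κ⌋₊,
          γ / (Real.sqrt Q : ℂ) * ((starRingEnd ℂ) (aa Q t G n) * bb Q κ t l) *
          (gaussSum (χ * DirichletCharacter.changeLevel h θ) ZMod.stdAddChar *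
            ((starRingEnd ℂ) ((χ * DirichletCharacter.changeLevel h θ) (n : ZMod (p ^ ν))) *
            (χ * DirichletCharacter.changeLevel h θ) (l : ZMod (p ^ ν)))) := by
      intro θ
      rw [AA_eq, MM_eq, map_sum, ← hQ, mul_assoc, Finset.sum_mul_sum, Finset.mul_sum]
      refine Finset.sum_congr rfl fun n _ => ?_
      rw [Finset.mul_sum]
      refine Finset.sum_congr rfl fun l _ => ?_
      rw [map_mul]
      ring
    rw [Finset.sum_congr rfl (fun θ _ => e1 θ), Finset.sum_comm, ← Finset.sum_add_distrib,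
      Finset.mul_sum]
    refine Finset.sum_congr rfl fun n _ => ?_
    rw [Finset.sum_comm, ← Finset.sum_add_distrib, Finset.mul_sum]
    refine Finset.sum_congr rfl fun l _ => ?_
    rw [← Finset.mul_sum]
    by_cases hnl : p ∣ n ∨ p ∣ l
    · rw [gsE_zero h χ (by
        rw [isUnit_nat_iff hp hν, isUnit_nat_iff hp hν, not_not, not_not]; exact hnl)]
      unfold hk
      rw [if_pos hnl, if_pos hnl]
      ring
    · have hnl' := not_or.1 hnl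
      have hnu := (isUnit_nat_iff hp hν n).2 hnl'.1
      have hlu := (isUnit_nat_iff hp hν l).2 hnl'.2
      rw [gsE h χ (x := (n : ZMod (p ^ ν)) * (l : ZMod (p ^ ν))⁻¹) hnu hlu (by
        have := ZMod.mul_inv_of_unit _ hlu
        linear_combination (n : ZMod (p ^ ν)) * this)]
      unfold hk
      rw [if_neg hnl, if_neg hnl]
      push_cast
      rw [one_mul, neg_one_mul]
      ring
  -- bounds
  have hbound : ∀ ε : ℤ, (ε = 1 ∨ ε = -1) → ‖∑ n ∈ Icc 1 (p ^ ν), ∑ l ∈ Icc 1 ⌊Q ^ κ⌋₊,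
          (starRingEnd ℂ) (aa Q t G n) * bb Q κ t l * hk h χ ε n l‖ ≤
      B0 * (C * (Q ^ κ * (Real.sqrt (2 * Q ^ κ / ((p ^ m : ℕ) : ℝ)) +
          2 * Real.sqrt (Q ^ (1 / 2 + κ)) / ((p ^ m : ℕ) : ℝ))) +
        C * (Q ^ κ * Real.sqrt (2 * (Q ^ κ) ^ 2 / ((p ^ m : ℕ) : ℝ))) +
        8 * Real.sqrt p * CM * C / (κ * Real.log Q)) := by
    intro ε hε
    have hεε : ((ε : ℤ) : ZMod (p ^ m)) * ((ε : ℤ) : ZMod (p ^ m)) = 1 := by
      rcases hε with h1 | h1 <;> rw [h1] <;> simp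
    have hb : ∀ n l, ‖hk h χ ε n l‖ ≤ B0 := by
      intro n l
      unfold hk
      split_ifs
      · rw [norm_zero]; exact hB0p.le
      · exact (hA' _).1
    have h0 : ∀ n l, hk h χ ε n l ≠ 0 → ¬ p ∣ n ∧ ¬ p ∣ l ∧
        ((p ^ m : ℕ) : ℤ) ∣ n - (ε * A') * l := by
      intro n l hne
      unfold hk at hne
      split_ifs at hne with h1
      · exact absurd rfl hne
      · rw [not_or] at h1
        refine ⟨h1.1, h1.2, ?_⟩
        have h2 := (hA' _).2 hne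
        have hlu := (isUnit_nat_iff hp hν l).2 h1.2
        have h3 := ZMod.mul_inv_of_unit _ hlu
        rw [map_mul, map_intCast] at h2
        have h4 : ZMod.castHom h (ZMod (p ^ m)) ((n : ZMod (p ^ ν)) * (l : ZMod (p ^ ν))⁻¹) *
            (l : ZMod (p ^ m)) = (n : ZMod (p ^ m)) := by
          have h5 : (n : ZMod (p ^ ν)) * (l : ZMod (p ^ ν))⁻¹ * (l : ZMod (p ^ ν)) =
              (n : ZMod (p ^ ν)) := by
            linear_combination (n : ZMod (p ^ ν)) * h3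
          have h6 := congrArg (ZMod.castHom h (ZMod (p ^ m))) h5
          rw [map_mul, map_natCast, map_natCast] at h6
          exact h6
        rw [← ZMod.intCast_zmod_eq_zero_iff_dvd]
        push_cast
        rw [← h4, ← h2]
        linear_combination (-(ZMod.castHom h (ZMod (p ^ m)) ((n : ZMod (p ^ ν)) *
          (l : ZMod (p ^ ν))⁻¹)) * (l : ZMod (p ^ m))) * hεε
    have hm1 := partM1 hG hQ1 hκ t hG0 (p ^ m) (p ^ ν) hd3 (hk h χ ε) (ε * A') B0 hb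
      (fun n l hne => (h0 n l hne).2.2)
    have hm2 := partM2 hCM hM hG hQ1 hκ hκ1 t p m (p ^ ν) hp
      (Nat.pow_le_pow_right hp.pos (by omega)) (hk h χ ε) (ε * A') B0 hb h0
      (fun n l j hj => hk_mul hp hν h χ ε n l j hj)
    have hsp : ∑ n ∈ Icc 1 (p ^ ν), ∑ l ∈ Icc 1 ⌊Q ^ κ⌋₊,
          (starRingEnd ℂ) (aa Q t G n) * bb Q κ t l * hk h χ ε n l =
        ∑ n ∈ Icc 1 (p ^ ν), ∑ l ∈ Icc 1 ⌊Q ^ κ⌋₊,
          (if (n : ℝ) ≤ ((p ^ m : ℕ) : ℝ) / (2 * Q ^ κ) then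
          (starRingEnd ℂ) (aa Q t G n) * bb Q κ t l * hk h χ ε n l else 0) +
        ∑ n ∈ Icc 1 (p ^ ν), ∑ l ∈ Icc 1 ⌊Q ^ κ⌋₊,
          (if ((p ^ m : ℕ) : ℝ) / (2 * Q ^ κ) < (n : ℝ) then
          (starRingEnd ℂ) (aa Q t G n) * bb Q κ t l * hk h χ ε n l else 0) := by
      rw [← Finset.sum_add_distrib]
      refine Finset.sum_congr rfl fun n _ => ?_
      rw [← Finset.sum_add_distrib]
      refine Finset.sum_congr rfl fun l _ => ?_
      by_cases h1 : (n : ℝ) ≤ ((p ^ m : ℕ) : ℝ) / (2 * Q ^ κ)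
      · rw [if_pos h1, if_neg (not_lt.2 h1), add_zero]
      · rw [if_neg h1, if_pos (not_le.1 h1), zero_add]
    rw [hsp]
    have hm1' : ‖∑ n ∈ Icc 1 (p ^ ν), ∑ l ∈ Icc 1 ⌊Q ^ κ⌋₊,
          (if ((p ^ m : ℕ) : ℝ) / (2 * Q ^ κ) < (n : ℝ) then
          (starRingEnd ℂ) (aa Q t G n) * bb Q κ t l * hk h χ ε n l else 0)‖ ≤
        C * B0 * (Q ^ κ * (Real.sqrt (2 * Q ^ κ / ((p ^ m : ℕ) : ℝ)) +
          2 * Real.sqrt (Q ^ (1 / 2 + κ)) / ((p ^ m : ℕ) : ℝ))) := by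
      refine (norm_sum_le _ _).trans ((Finset.sum_le_sum fun n _ => norm_sum_le _ _).trans ?_)
      refine le_trans (le_of_eq ?_) hm1
      refine Finset.sum_congr rfl fun n _ => Finset.sum_congr rfl fun l _ => ?_
      split_ifs
      · rw [norm_mul, norm_mul, RCLike.norm_conj, ← norm_mul, ← norm_mul]
      · exact norm_zero
    refine (norm_add_le _ _).trans ((add_le_add hm2 hm1').trans (le_of_eq ?_))
    ring
  rw [hmain, norm_mul, norm_mul, norm_div, hγ, Complex.norm_real, Real.norm_eq_abs,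
    abs_of_pos hsQ]
  obtain ⟨Z, hZ⟩ : ∃ Z : ℝ, Z = C * (Q ^ κ * (Real.sqrt (2 * Q ^ κ / ((p ^ m : ℕ) : ℝ)) +
          2 * Real.sqrt (Q ^ (1 / 2 + κ)) / ((p ^ m : ℕ) : ℝ))) +
        C * (Q ^ κ * Real.sqrt (2 * (Q ^ κ) ^ 2 / ((p ^ m : ℕ) : ℝ))) +
        8 * Real.sqrt p * CM * C / (κ * Real.log Q) := ⟨_, rfl⟩
  have hlQ : 0 < Real.log Q := Real.log_pos hQ1
  have hZ0 : 0 ≤ Z := by rw [hZ]; positivity
  have e4 : ‖((p ^ m).totient : ℂ) / 2‖ = ((p ^ m).totient : ℝ) / 2 := by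
    rw [norm_div, Complex.norm_natCast]
    norm_num
  rw [e4]
  have hb1 := hbound 1 (Or.inl rfl)
  have hb2 := hbound (-1) (Or.inr rfl)
  rw [← hZ] at hb1 hb2 ⊢
  calc 1 / Real.sqrt Q * (((p ^ m).totient : ℝ) / 2) *
      ‖∑ n ∈ Icc 1 (p ^ ν), ∑ l ∈ Icc 1 ⌊Q ^ κ⌋₊,
          (starRingEnd ℂ) (aa Q t G n) * bb Q κ t l * hk h χ 1 n l +
        ∑ n ∈ Icc 1 (p ^ ν), ∑ l ∈ Icc 1 ⌊Q ^ κ⌋₊,
          (starRingEnd ℂ) (aa Q t G n) * bb Q κ t l * hk h χ (-1) n l‖ ≤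
      1 / Real.sqrt Q * (((p ^ m).totient : ℝ) / 2) * (B0 * Z + B0 * Z) :=
        mul_le_mul_of_nonneg_left ((norm_add_le _ _).trans (add_le_add hb1 hb2))
          (by positivity)
    _ = ((p ^ m).totient : ℝ) * (B0 / Real.sqrt Q * Z) := by ring
    _ ≤ ((p ^ m).totient : ℝ) * (Real.sqrt p * Z) := by
        apply mul_le_mul_of_nonneg_left _ (by positivity)
        apply mul_le_mul_of_nonneg_right _ hZ0
        rw [div_le_iff₀ hsQ]
        exact hB0s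

theorem num1 {Q κ δ d : ℝ} (hQ : 1 ≤ Q) (hκ : 0 < κ) (hκ1 : κ ≤ 1 / 100) (hδ : 10 * κ ≤ δ)
    (hd : Q ^ (1 / 4 + δ) ≤ d) :
    Q ^ κ * Real.sqrt (2 / d) ≤ 2 * Q ^ (-(1 / 10) : ℝ) ∧
    Q ^ κ * Real.sqrt (2 * Q ^ κ / d) ≤ 2 * Q ^ (-(1 / 10) : ℝ) ∧
    Q ^ κ * Real.sqrt (2 * (Q ^ κ) ^ 2 / d) ≤ 2 * Q ^ (-(1 / 10) : ℝ) ∧
    Q ^ κ * (2 * Real.sqrt (Q ^ (1 / 2 + κ)) / d) ≤ 2 * Q ^ (-(δ / 2) : ℝ) := by
  have hQ0 : 0 < Q := by linarith
  have hy1 : 1 ≤ Q ^ κ := Real.one_le_rpow hQ hκ.le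
  have hy0 : 0 < Q ^ κ := by linarith
  have hd0 : 0 < d := lt_of_lt_of_le (Real.rpow_pos_of_pos hQ0 _) hd
  have hr0 : 0 < Q ^ (-(1 / 10) : ℝ) := Real.rpow_pos_of_pos hQ0 _
  have h3 : Q ^ κ * Real.sqrt (2 * (Q ^ κ) ^ 2 / d) ≤ 2 * Q ^ (-(1 / 10) : ℝ) := by
    have h4 : Real.sqrt (2 * (Q ^ κ) ^ 2 / d) ≤ 2 * Q ^ (-(1 / 10) : ℝ) / Q ^ κ := by
      rw [Real.sqrt_le_iff]
      refine ⟨by positivity, ?_⟩
      rw [div_pow, div_le_div_iff₀ hd0 (by positivity)]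
      have h5 : (Q ^ κ) ^ 2 * (Q ^ κ) ^ 2 = Q ^ (4 * κ) := by
        rw [← pow_add, ← Real.rpow_natCast, ← Real.rpow_mul hQ0.le]
        congr 1
        push_cast
        ring
      have h6 : (Q ^ (-(1 / 10) : ℝ)) ^ 2 = Q ^ (-(1 / 5) : ℝ) := by
        rw [← Real.rpow_natCast, ← Real.rpow_mul hQ0.le]
        congr 1
        push_cast
        ring
      have h7 : Q ^ (4 * κ) ≤ Q ^ (-(1 / 5) : ℝ) * d := by
        calc Q ^ (4 * κ) ≤ Q ^ (-(1 / 5) + (1 / 4 + δ) : ℝ) :=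
              Real.rpow_le_rpow_of_exponent_le hQ (by linarith)
          _ = Q ^ (-(1 / 5) : ℝ) * Q ^ (1 / 4 + δ) := Real.rpow_add hQ0 _ _
          _ ≤ _ := mul_le_mul_of_nonneg_left hd (by positivity)
      have h8 : 0 ≤ Q ^ (-(1 / 5) : ℝ) * d := by positivity
      calc 2 * (Q ^ κ) ^ 2 * (Q ^ κ) ^ 2 = 2 * ((Q ^ κ) ^ 2 * (Q ^ κ) ^ 2) := by ring
        _ = 2 * Q ^ (4 * κ) := by rw [h5]
        _ ≤ 4 * (Q ^ (-(1 / 5) : ℝ) * d) := by linarith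
        _ = (2 * Q ^ (-(1 / 10) : ℝ)) ^ 2 * d := by rw [mul_pow, h6]; ring
    calc Q ^ κ * Real.sqrt (2 * (Q ^ κ) ^ 2 / d) ≤ Q ^ κ * (2 * Q ^ (-(1 / 10) : ℝ) / Q ^ κ) :=
          mul_le_mul_of_nonneg_left h4 hy0.le
      _ = _ := by field_simp
  refine ⟨?_, ?_, h3, ?_⟩
  · refine le_trans (mul_le_mul_of_nonneg_left (Real.sqrt_le_sqrt ?_) hy0.le) h3
    apply div_le_div_of_nonneg_right _ hd0.le
    nlinarith
  · refine le_trans (mul_le_mul_of_nonneg_left (Real.sqrt_le_sqrt ?_) hy0.le) h3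
    apply div_le_div_of_nonneg_right _ hd0.le
    nlinarith
  · have h4 : Real.sqrt (Q ^ (1 / 2 + κ)) = Q ^ (1 / 4 + κ / 2) := by
      rw [Real.sqrt_eq_rpow, ← Real.rpow_mul hQ0.le]
      congr 1
      ring
    rw [h4]
    have h5 : Q ^ κ * Q ^ (1 / 4 + κ / 2) ≤ Q ^ (-(δ / 2) : ℝ) * d := by
      calc Q ^ κ * Q ^ (1 / 4 + κ / 2) = Q ^ (κ + (1 / 4 + κ / 2)) := (Real.rpow_add hQ0 _ _).symm
        _ ≤ Q ^ (-(δ / 2) + (1 / 4 + δ) : ℝ) :=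
            Real.rpow_le_rpow_of_exponent_le hQ (by linarith)
        _ = Q ^ (-(δ / 2) : ℝ) * Q ^ (1 / 4 + δ) := Real.rpow_add hQ0 _ _
        _ ≤ _ := mul_le_mul_of_nonneg_left hd (by positivity)
    calc Q ^ κ * (2 * Q ^ (1 / 4 + κ / 2) / d) = 2 * (Q ^ κ * Q ^ (1 / 4 + κ / 2)) / d := by ring
      _ ≤ 2 * (Q ^ (-(δ / 2) : ℝ) * d) / d := by
          apply div_le_div_of_nonneg_right _ hd0.le
          linarith
      _ = _ := by field_simp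

/-- the total error -/
noncomputable def err (C CM κ δ p Q : ℝ) : ℝ :=
  C * (2 * Q ^ (-(1 / 10) : ℝ) + 2 * Q ^ (-(δ / 2) : ℝ)) +
    Real.sqrt p * (C * (2 * Q ^ (-(1 / 10) : ℝ) + 2 * Q ^ (-(δ / 2) : ℝ)) +
      C * (2 * Q ^ (-(1 / 10) : ℝ)) + 8 * Real.sqrt p * CM * C / (κ * Real.log Q))

theorem err_tendsto (C CM κ δ : ℝ) (p : ℕ) (hκ : 0 < κ) (hδ : 0 < δ) (hp : 2 ≤ p) :
    Filter.Tendsto (fun ν : ℕ => err C CM κ δ p ((p ^ ν : ℕ) : ℝ)) Filter.atTop (nhds 0) := by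
  have h0 : Filter.Tendsto (fun ν : ℕ => ((p ^ ν : ℕ) : ℝ)) Filter.atTop Filter.atTop := by
    apply tendsto_natCast_atTop_atTop.comp
    exact tendsto_pow_atTop_atTop_of_one_lt (by omega)
  have h1 : ∀ a : ℝ, 0 < a → Filter.Tendsto (fun ν : ℕ => ((p ^ ν : ℕ) : ℝ) ^ (-a))
      Filter.atTop (nhds 0) := fun a ha => (tendsto_rpow_neg_atTop ha).comp h0
  have h2 : Filter.Tendsto (fun ν : ℕ => κ * Real.log ((p ^ ν : ℕ) : ℝ)) Filter.atTop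
      Filter.atTop :=
    Filter.Tendsto.const_mul_atTop hκ (Real.tendsto_log_atTop.comp h0)
  have h3 : Filter.Tendsto (fun ν : ℕ => 8 * Real.sqrt p * CM * C /
      (κ * Real.log ((p ^ ν : ℕ) : ℝ))) Filter.atTop (nhds 0) := h2.const_div_atTop _
  have h4 := h1 (1 / 10) (by norm_num)
  have h5 := h1 (δ / 2) (by positivity)
  have h6 := (((h4.const_mul 2).add (h5.const_mul 2)).const_mul C).add
    ((((((h4.const_mul 2).add (h5.const_mul 2)).const_mul C).add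
      ((h4.const_mul 2).const_mul C)).add h3).const_mul (Real.sqrt p))
  have e : C * (2 * 0 + 2 * 0) + Real.sqrt p * (C * (2 * 0 + 2 * 0) + C * (2 * 0) + 0) = 0 := by
    ring
  rw [e] at h6
  exact h6

theorem fmo (hMOB : Pool.Agent.Y766.R10.S_MOB) : Pool.Agent.Y766.R10.S_FMO := by
  classical
  obtain ⟨CM, hCM, hM⟩ := hMOB
  intro δ κ t C hδ hκ hκδ hκ1 hC p hpF hp3
  have hp : p.Prime := hpF.out
  have hev := (err_tendsto C CM κ δ p hκ hδ (by omega)).eventually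
    (ge_mem_nhds (show (0 : ℝ) < 1 / 8 by norm_num))
  rw [Filter.eventually_atTop] at hev
  obtain ⟨ν₁, hν₁⟩ := hev
  refine ⟨max ν₁ 2, ?_⟩
  intro ν m hmν hν h14 h2m χ hχ G hG hG0 hG1 γ hγ
  have herr := hν₁ ν (le_trans (le_max_left _ _) hν)
  have hν2 : 2 ≤ ν := le_trans (le_max_right _ _) hν
  have hm : 1 ≤ m := by
    by_contra hcon
    have h0 : m = 0 := by omega
    rw [h0, Nat.cast_zero] at h14
    have h1 : (0 : ℝ) < (1 / 4 + δ) * ν := by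
      have : (0 : ℝ) < ν := by exact_mod_cast (by omega : 0 < ν)
      positivity
    linarith
  have hd3 : 3 ≤ p ^ m := hp3.trans (Nat.le_self_pow (by omega) p)
  obtain ⟨Q, hQ⟩ : ∃ Q : ℝ, Q = ((p ^ ν : ℕ) : ℝ) := ⟨_, rfl⟩
  have hQ1 : 1 < Q := by
    rw [hQ]
    exact_mod_cast Nat.one_lt_pow (by omega : ν ≠ 0) (by omega)
  have hQ0 : 0 < Q := by linarith
  have hdQ : Q ^ (1 / 4 + δ) ≤ ((p ^ m : ℕ) : ℝ) := by
    have hp1 : (1 : ℝ) ≤ p := by exact_mod_cast hp.one_le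
    rw [hQ]
    push_cast
    rw [← Real.rpow_natCast, ← Real.rpow_natCast, ← Real.rpow_mul (by positivity)]
    apply Real.rpow_le_rpow_of_exponent_le hp1
    linarith
  have hfp := first_part (pow_dvd_pow p hmν.le) χ hG (by rw [← hQ]; exact hQ1) hκ t hG0 hd3
  have hsp := second_part hCM hM hp hp3 hm h2m (pow_dvd_pow p hmν.le) χ hχ hG hκ
    (by linarith) t hG0 γ hγ
  rw [← hQ] at hfp hsp herr
  obtain ⟨n1, n2, n3, n4⟩ := num1 hQ1.le hκ hκ1 hκδ hdQ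
  obtain ⟨φ, hφ⟩ : ∃ φ : ℝ, φ = ((p ^ m).totient : ℝ) := ⟨_, rfl⟩
  have hφ0 : 0 ≤ φ := by rw [hφ]; positivity
  have hφd : (2 / 3 : ℝ) * (p : ℝ) ^ m ≤ φ := by
    rw [hφ, Nat.totient_prime_pow hp (by omega)]
    push_cast
    rw [Nat.cast_sub hp.one_le, Nat.cast_one]
    have hp3r : (3 : ℝ) ≤ p := by exact_mod_cast hp3
    obtain ⟨k, rfl⟩ : ∃ k, m = k + 1 := ⟨m - 1, by omega⟩
    rw [Nat.add_sub_cancel, pow_succ]
    have h1 : (0 : ℝ) < (p : ℝ) ^ k := by positivity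
    nlinarith
  have hsqp : 0 ≤ Real.sqrt p := Real.sqrt_nonneg _
  -- the two bounds
  have hf2 : Real.sqrt (2 / ((p ^ m : ℕ) : ℝ)) * Q ^ κ = Q ^ κ * Real.sqrt (2 / ((p ^ m : ℕ) : ℝ)) :=
    mul_comm _ _
  have hE : C * (Q ^ κ * (Real.sqrt (2 / ((p ^ m : ℕ) : ℝ)) +
        2 * Real.sqrt (Q ^ (1 / 2 + κ)) / ((p ^ m : ℕ) : ℝ))) +
      Real.sqrt p * (C * (Q ^ κ * (Real.sqrt (2 * Q ^ κ / ((p ^ m : ℕ) : ℝ)) +
          2 * Real.sqrt (Q ^ (1 / 2 + κ)) / ((p ^ m : ℕ) : ℝ))) +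
        C * (Q ^ κ * Real.sqrt (2 * (Q ^ κ) ^ 2 / ((p ^ m : ℕ) : ℝ))) +
        8 * Real.sqrt p * CM * C / (κ * Real.log Q)) ≤ 1 / 8 := by
    refine le_trans ?_ herr
    unfold err
    apply add_le_add
    · apply mul_le_mul_of_nonneg_left _ hC.le
      rw [mul_add]
      exact add_le_add n1 n4
    · apply mul_le_mul_of_nonneg_left _ hsqp
      apply add_le_add _ le_rfl
      apply add_le_add
      · apply mul_le_mul_of_nonneg_left _ hC.le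
        rw [mul_add]
        exact add_le_add n2 n4
      · exact mul_le_mul_of_nonneg_left n3 hC.le
  have hG0n : 3 / 4 ≤ ‖G 0‖ := by
    have h1 : ‖(1 : ℂ)‖ ≤ ‖G 0‖ + ‖G 0 - 1‖ := by
      have h2 : (1 : ℂ) = G 0 - (G 0 - 1) := by ring
      calc ‖(1 : ℂ)‖ = ‖G 0 - (G 0 - 1)‖ := by rw [← h2]
        _ ≤ _ := norm_sub_le _ _
    rw [norm_one] at h1
    linarith
  have hmainn : ‖((p ^ m).totient : ℂ) / 2 * G 0‖ = φ / 2 * ‖G 0‖ := by
    rw [norm_mul, norm_div, Complex.norm_natCast, hφ]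
    norm_num
  rw [← hφ] at hfp hsp
  obtain ⟨S1, hS1⟩ : ∃ S1 : ℂ, S1 = ∑ θ ∈ EE (pow_dvd_pow p hmν.le) χ,
      AA (χ * DirichletCharacter.changeLevel (pow_dvd_pow p hmν.le) θ) G t *
      MM (χ * DirichletCharacter.changeLevel (pow_dvd_pow p hmν.le) θ) κ t := ⟨_, rfl⟩
  obtain ⟨S2, hS2⟩ : ∃ S2 : ℂ, S2 = ∑ θ ∈ EE (pow_dvd_pow p hmν.le) χ,
      γ * (gaussSum (χ * DirichletCharacter.changeLevel (pow_dvd_pow p hmν.le) θ)
        ZMod.stdAddChar / (Real.sqrt ((p : ℝ) ^ ν) : ℂ)) *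
        (starRingEnd ℂ) (AA (χ * DirichletCharacter.changeLevel (pow_dvd_pow p hmν.le) θ) G t) *
      MM (χ * DirichletCharacter.changeLevel (pow_dvd_pow p hmν.le) θ) κ t := ⟨_, rfl⟩
  rw [← hS1] at hfp
  rw [← hS2] at hsp
  have hgoal : (∑ θ ∈ (univ : Finset (DirichletCharacter ℂ (p ^ m))).filter
      (fun θ => (χ * DirichletCharacter.changeLevel (pow_dvd_pow p hmν.le) θ).Even),
    (AA (χ * DirichletCharacter.changeLevel (pow_dvd_pow p hmν.le) θ) G t +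
      γ * (gaussSum (χ * DirichletCharacter.changeLevel (pow_dvd_pow p hmν.le) θ) ZMod.stdAddChar /
        (Real.sqrt ((p : ℝ) ^ ν) : ℂ)) *
      (starRingEnd ℂ) (AA (χ * DirichletCharacter.changeLevel (pow_dvd_pow p hmν.le) θ) G t)) *
      MM (χ * DirichletCharacter.changeLevel (pow_dvd_pow p hmν.le) θ) κ t) = S1 + S2 := by
    rw [hS1, hS2, ← Finset.sum_add_distrib]
    unfold EE
    refine Finset.sum_congr (by congr) fun θ _ => ?_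
    rw [add_mul]
  rw [hgoal]
  have hfin : ‖((p ^ m).totient : ℂ) / 2 * G 0‖ ≤
      ‖S1 + S2‖ + (‖S1 - ((p ^ m).totient : ℂ) / 2 * G 0‖ + ‖S2‖) := by
    have h1 : ((p ^ m).totient : ℂ) / 2 * G 0 = (S1 + S2) -
        ((S1 - ((p ^ m).totient : ℂ) / 2 * G 0) + S2) := by ring
    calc ‖((p ^ m).totient : ℂ) / 2 * G 0‖ = ‖(S1 + S2) -
        ((S1 - ((p ^ m).totient : ℂ) / 2 * G 0) + S2)‖ := by rw [← h1]
      _ ≤ ‖S1 + S2‖ + ‖(S1 - ((p ^ m).totient : ℂ) / 2 * G 0) + S2‖ := norm_sub_le _ _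
      _ ≤ _ := by
        apply add_le_add le_rfl
        exact norm_add_le _ _
  rw [hmainn] at hfin
  have h9 := mul_le_mul_of_nonneg_left hE hφ0
  have h10 := mul_le_mul_of_nonneg_left hG0n (show 0 ≤ φ / 2 by positivity)
  rw [mul_add] at h9
  linarith

end Pool.Agent.Y764.R10
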