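import Pool.Agent.Y766.R10.Stm

/-!
Job R10-FMO, part 2: smooth logarithmic means of the Moebius function, from `S_MOB`.
-/

set_option autoImplicit false

namespace Pool.Agent.Y764.R10

open Finset
open Pool.Agent.Y766.R10 (WG ww mw)

theorem card_divisors_le (k : ℕ) : k.divisors.card ≤ 2 * Nat.sqrt k := by
  classical
  rcases Nat.eq_zero_or_pos k with rfl | hk
  · simp
  have h1 : k.divisors ⊆ (Finset.Icc 1 (Nat.sqrt k)) ∪
      (Finset.Icc 1 (Nat.sqrt k)).image (fun d => k / d) := by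
    intro d hd
    have hdk := Nat.dvd_of_mem_divisors hd
    have hd0 := Nat.pos_of_mem_divisors hd
    rw [Finset.mem_union]
    by_cases h : d ≤ Nat.sqrt k
    · left; rw [Finset.mem_Icc]; exact ⟨hd0, h⟩
    · right
      rw [Finset.mem_image]
      refine ⟨k / d, ?_, Nat.div_div_self hdk hk.ne'⟩
      rw [Finset.mem_Icc]
      constructor
      · exact Nat.div_pos (Nat.le_of_dvd hk hdk) hd0
      · by_contra hcon
        push Not at h hcon
        have h2 : d * (k / d) = k := Nat.mul_div_cancel' hdk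
        have h3 := Nat.lt_succ_sqrt k
        have h4 : (Nat.sqrt k + 1) * (Nat.sqrt k + 1) ≤ d * (k / d) := Nat.mul_le_mul h hcon
        rw [h2] at h4
        exact absurd h3 (not_lt.mpr h4)
  calc k.divisors.card ≤ ((Finset.Icc 1 (Nat.sqrt k)) ∪
      (Finset.Icc 1 (Nat.sqrt k)).image (fun d => k / d)).card := Finset.card_le_card h1
    _ ≤ (Finset.Icc 1 (Nat.sqrt k)).card +
      ((Finset.Icc 1 (Nat.sqrt k)).image (fun d => k / d)).card := Finset.card_union_le _ _
    _ ≤ Nat.sqrt k + Nat.sqrt k := by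
        apply add_le_add
        · simp
        · exact Finset.card_image_le.trans (by simp)
    _ = 2 * Nat.sqrt k := by ring

/-- `g / φ(g) ≤ 2 √g` -/
theorem tot_bound (k : ℕ) (hk : 1 ≤ k) : (k : ℝ) / Nat.totient k ≤ 2 * Real.sqrt k := by
  have h1 : k ≤ k.divisors.card * Nat.totient k := by
    calc k = ∑ e ∈ k.divisors, Nat.totient e := (Nat.sum_totient k).symm
      _ ≤ ∑ _e ∈ k.divisors, Nat.totient k := by
          apply Finset.sum_le_sum
          intro e he
          exact Nat.le_of_dvd (Nat.totient_pos.mpr (by omega))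
            (Nat.totient_dvd_of_dvd (Nat.dvd_of_mem_divisors he))
      _ = k.divisors.card * Nat.totient k := by rw [Finset.sum_const, smul_eq_mul]
  have h2 := card_divisors_le k
  have h3 : k ≤ 2 * Nat.sqrt k * Nat.totient k := h1.trans (Nat.mul_le_mul_right _ h2)
  have h4 : (k : ℝ) ≤ 2 * (Nat.sqrt k : ℝ) * Nat.totient k := by exact_mod_cast h3
  have h5 : (Nat.sqrt k : ℝ) ≤ Real.sqrt k := Real.nat_sqrt_le_real_sqrt
  have h8 : (0 : ℝ) < Nat.totient k := by exact_mod_cast Nat.totient_pos.mpr (by omega)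
  rw [div_le_iff₀ h8]
  refine h4.trans ?_
  apply mul_le_mul_of_nonneg_right _ h8.le
  linarith

theorem taylor (F F1 F2 : ℝ → ℂ) (h1 : ∀ v, HasDerivAt F (F1 v) v)
    (h2 : ∀ v, HasDerivAt F1 (F2 v) v) (hc : Continuous F2) {a w : ℝ} (ha : 0 ≤ a)
    (haw : a ≤ w) :
    F a = F w - ((w - a : ℝ) : ℂ) * F1 w +
      ∫ v in (0 : ℝ)..w, ((max (v - a) 0 : ℝ) : ℂ) * F2 v := by
  have hcont : Continuous (fun v : ℝ => ((max (v - a) 0 : ℝ) : ℂ) * F2 v) := by
    fun_prop
  have hint : ∀ x y : ℝ, IntervalIntegrable (fun v : ℝ => ((max (v - a) 0 : ℝ) : ℂ) * F2 v)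
      MeasureTheory.volume x y := fun x y => hcont.intervalIntegrable x y
  rw [← intervalIntegral.integral_add_adjacent_intervals (hint 0 a) (hint a w)]
  have e1 : ∫ v in (0 : ℝ)..a, ((max (v - a) 0 : ℝ) : ℂ) * F2 v = 0 := by
    have : ∫ v in (0 : ℝ)..a, ((max (v - a) 0 : ℝ) : ℂ) * F2 v = ∫ v in (0 : ℝ)..a, (0 : ℂ) := by
      apply intervalIntegral.integral_congr
      intro v hv
      rw [Set.uIcc_of_le ha] at hv
      simp only
      rw [max_eq_right (by linarith [hv.2])]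
      simp
    rw [this]; simp
  have e2 : ∫ v in a..w, ((max (v - a) 0 : ℝ) : ℂ) * F2 v =
      (((w - a : ℝ) : ℂ) * F1 w - F w) - (((a - a : ℝ) : ℂ) * F1 a - F a) := by
    have : ∫ v in a..w, ((max (v - a) 0 : ℝ) : ℂ) * F2 v =
        ∫ v in a..w, ((v - a : ℝ) : ℂ) * F2 v := by
      apply intervalIntegral.integral_congr
      intro v hv
      rw [Set.uIcc_of_le haw] at hv
      simp only
      rw [max_eq_left (by linarith [hv.1])]
    rw [this]
    apply intervalIntegral.integral_eq_sub_of_hasDerivAt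
      (f := fun v : ℝ => ((v - a : ℝ) : ℂ) * F1 v - F v)
    · intro v _
      have h3 : HasDerivAt (fun v : ℝ => ((v - a : ℝ) : ℂ)) 1 v := by
        have := ((hasDerivAt_id v).sub_const a).ofReal_comp
        simpa using this
      have h4 : HasDerivAt (fun v : ℝ => ((v - a : ℝ) : ℂ) * F1 v - F v)
          (1 * F1 v + ((v - a : ℝ) : ℂ) * F2 v - F1 v) v := (h3.mul (h2 v)).sub (h1 v)
      exact h4.congr_deriv (by ring)
    · apply Continuous.intervalIntegrable
      fun_prop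
  rw [e1, e2]
  push_cast
  ring

/-- the sum of `S_MOB` -/
noncomputable def WW (g : ℕ) (t : ℝ) : ℝ :=
  ∑ j ∈ (Icc 1 ⌊t⌋₊).filter (fun j => Nat.Coprime j g),
    (ArithmeticFunction.moebius j : ℝ) / j * Real.log (t / j)

theorem WW_eq (g : ℕ) {L T v : ℝ} (hL : 0 < L) (hv : Real.exp (v * L) ≤ T) :
    ∑ j ∈ (Icc 1 ⌊T⌋₊).filter (fun j => Nat.Coprime j g),
      (ArithmeticFunction.moebius j : ℝ) / j * max (v - Real.log j / L) 0 =
      WW g (Real.exp (v * L)) / L := by
  unfold WW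
  rw [Finset.sum_div]
  symm
  have hsub : (Icc 1 ⌊Real.exp (v * L)⌋₊).filter (fun j => Nat.Coprime j g) ⊆
      (Icc 1 ⌊T⌋₊).filter (fun j => Nat.Coprime j g) := by
    apply Finset.filter_subset_filter
    apply Finset.Icc_subset_Icc_right
    exact Nat.floor_le_floor hv
  have hz : ∀ j ∈ (Icc 1 ⌊T⌋₊).filter (fun j => Nat.Coprime j g),
      j ∉ (Icc 1 ⌊Real.exp (v * L)⌋₊).filter (fun j => Nat.Coprime j g) →
      (ArithmeticFunction.moebius j : ℝ) / j * max (v - Real.log j / L) 0 = 0 := by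
    intro j hj hj2
    rw [mem_filter, mem_Icc] at hj hj2
    have h1 : ¬ j ≤ ⌊Real.exp (v * L)⌋₊ := fun h => hj2 ⟨⟨hj.1.1, h⟩, hj.2⟩
    rw [Nat.le_floor_iff (Real.exp_pos _).le, not_le] at h1
    have h2 : v * L < Real.log j := by
      rw [Real.lt_log_iff_exp_lt (by exact_mod_cast hj.1.1)]
      exact h1
    have h3 : v - Real.log j / L ≤ 0 := by
      rw [sub_nonpos, le_div_iff₀ hL]
      exact h2.le
    rw [max_eq_right h3, mul_zero]
  rw [← Finset.sum_subset hsub hz]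
  refine Finset.sum_congr rfl fun j hj => ?_
  rw [mem_filter, mem_Icc, Nat.le_floor_iff (Real.exp_pos _).le] at hj
  have hj0 : (0 : ℝ) < j := by exact_mod_cast hj.1.1
  have h1 : Real.log (Real.exp (v * L) / j) = v * L - Real.log j := by
    rw [Real.log_div (Real.exp_pos _).ne' hj0.ne', Real.log_exp]
  have h2 : Real.log j ≤ v * L := by
    rw [Real.log_le_iff_le_exp hj0]; exact hj.1.2
  have h3 : 0 ≤ v - Real.log j / L := by
    rw [sub_nonneg, div_le_iff₀ hL]; exact h2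
  rw [max_eq_left h3, h1]
  field_simp

theorem mobF {CM : ℝ} (hM : ∀ g : ℕ, 1 ≤ g → ∀ t : ℝ, 1 ≤ t →
      |∑ j ∈ (Icc 1 ⌊t⌋₊).filter (fun j => Nat.Coprime j g),
        (ArithmeticFunction.moebius j : ℝ) / j * Real.log (t / j)| ≤ CM * (g / Nat.totient g))
    (F F1 F2 : ℝ → ℂ) (h1 : ∀ v, HasDerivAt F (F1 v) v)
    (h2 : ∀ v, HasDerivAt F1 (F2 v) v) (hc : Continuous F2) {L T B1 B2 : ℝ} (hL : 0 < L)
    (hT : 1 ≤ T) (hF0 : F (Real.log T / L) = 0) (hB1 : ‖F1 (Real.log T / L)‖ ≤ B1)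
    (hB2 : ∀ v, 0 ≤ v → v ≤ Real.log T / L → ‖F2 v‖ ≤ B2) (g : ℕ) (hg : 1 ≤ g) :
    ‖∑ j ∈ (Icc 1 ⌊T⌋₊).filter (fun j => Nat.Coprime j g),
      ((ArithmeticFunction.moebius j : ℝ) / j : ℝ) * F (Real.log j / L)‖ ≤
      CM * (g / Nat.totient g) * (B1 + Real.log T / L * B2) / L := by
  obtain ⟨w, hw⟩ : ∃ w, w = Real.log T / L := ⟨_, rfl⟩
  rw [← hw] at hF0 hB1 hB2 ⊢
  have hT0 : 0 < T := by linarith
  have hw0 : 0 ≤ w := by rw [hw]; exact div_nonneg (Real.log_nonneg hT) hL.le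
  have hwT : Real.exp (w * L) = T := by
    rw [hw, div_mul_cancel₀ _ hL.ne', Real.exp_log hT0]
  obtain ⟨K, hK⟩ : ∃ K : ℝ, K = CM * (g / Nat.totient g) := ⟨_, rfl⟩
  have hWW : ∀ v, 0 ≤ v → |WW g (Real.exp (v * L))| ≤ K := by
    intro v hv
    rw [hK]
    exact hM g hg _ (Real.one_le_exp (by positivity))
  have hK0 : 0 ≤ K := le_trans (abs_nonneg _) (hWW 0 le_rfl)
  rw [← hK]
  obtain ⟨S, hS⟩ : ∃ S, S = (Icc 1 ⌊T⌋₊).filter (fun j => Nat.Coprime j g) := ⟨_, rfl⟩
  have hWe : ∀ v, v ≤ w → ∑ j ∈ S,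
      (ArithmeticFunction.moebius j : ℝ) / j * max (v - Real.log j / L) 0 =
      WW g (Real.exp (v * L)) / L := by
    intro v hv
    rw [hS]
    apply WW_eq g hL
    rw [← hwT]
    exact Real.exp_le_exp.2 (mul_le_mul_of_nonneg_right hv hL.le)
  rw [← hS]
  have hjS : ∀ j ∈ S, 0 ≤ Real.log j / L ∧ Real.log j / L ≤ w := by
    intro j hj
    rw [hS, mem_filter, mem_Icc, Nat.le_floor_iff hT0.le] at hj
    have hj0 : (0 : ℝ) < j := by exact_mod_cast hj.1.1
    constructor
    · exact div_nonneg (Real.log_natCast_nonneg j) hL.le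
    · rw [hw]
      exact div_le_div_of_nonneg_right (Real.log_le_log hj0 hj.1.2) hL.le
  have e1 : ∑ j ∈ S, (((ArithmeticFunction.moebius j : ℝ) / j : ℝ) : ℂ) * F (Real.log j / L) =
      -((WW g (Real.exp (w * L)) / L : ℝ) : ℂ) * F1 w +
        ∫ v in (0 : ℝ)..w, ((WW g (Real.exp (v * L)) / L : ℝ) : ℂ) * F2 v := by
    have e2 : ∀ j ∈ S, (((ArithmeticFunction.moebius j : ℝ) / j : ℝ) : ℂ) *
        F (Real.log j / L) =
        -(((ArithmeticFunction.moebius j : ℝ) / j * max (w - Real.log j / L) 0 : ℝ) : ℂ) *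
          F1 w + ∫ v in (0 : ℝ)..w, (((ArithmeticFunction.moebius j : ℝ) / j *
            max (v - Real.log j / L) 0 : ℝ) : ℂ) * F2 v := by
      intro j hj
      obtain ⟨hj1, hj2⟩ := hjS j hj
      rw [taylor F F1 F2 h1 h2 hc hj1 hj2, hF0, max_eq_left (by linarith)]
      have e3 : ∫ v in (0 : ℝ)..w, (((ArithmeticFunction.moebius j : ℝ) / j *
            max (v - Real.log j / L) 0 : ℝ) : ℂ) * F2 v =
          (((ArithmeticFunction.moebius j : ℝ) / j : ℝ) : ℂ) *
            ∫ v in (0 : ℝ)..w, ((max (v - Real.log j / L) 0 : ℝ) : ℂ) * F2 v := by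
        rw [← intervalIntegral.integral_const_mul]
        congr 1
        funext v
        push_cast
        ring
      rw [e3]
      push_cast
      ring
    rw [Finset.sum_congr rfl e2, Finset.sum_add_distrib, ← Finset.sum_mul,
      Finset.sum_neg_distrib, ← Complex.ofReal_sum, hWe w le_rfl]
    congr 1
    rw [← intervalIntegral.integral_finsetSum]
    · apply intervalIntegral.integral_congr
      intro v hv
      rw [Set.uIcc_of_le hw0] at hv
      simp only
      rw [← Finset.sum_mul, ← Complex.ofReal_sum, hWe v hv.2]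
    · intro j _
      apply Continuous.intervalIntegrable
      fun_prop
  rw [e1]
  have h3 : ‖-((WW g (Real.exp (w * L)) / L : ℝ) : ℂ) * F1 w‖ ≤ K / L * B1 := by
    rw [norm_mul, norm_neg, Complex.norm_real, Real.norm_eq_abs, abs_div, abs_of_pos hL]
    exact mul_le_mul (div_le_div_of_nonneg_right (hWW w hw0) hL.le) hB1 (norm_nonneg _)
      (by positivity)
  have h4 : ‖∫ v in (0 : ℝ)..w, ((WW g (Real.exp (v * L)) / L : ℝ) : ℂ) * F2 v‖ ≤
      K / L * B2 * |w - 0| := by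
    apply intervalIntegral.norm_integral_le_of_norm_le_const
    intro v hv
    rw [Set.uIoc_of_le hw0] at hv
    rw [norm_mul, Complex.norm_real, Real.norm_eq_abs, abs_div, abs_of_pos hL]
    exact mul_le_mul (div_le_div_of_nonneg_right (hWW v hv.1.le) hL.le)
      (hB2 v hv.1.le hv.2) (norm_nonneg _) (by positivity)
  rw [sub_zero, abs_of_nonneg hw0] at h4
  refine (norm_add_le _ _).trans ((add_le_add h3 h4).trans (le_of_eq ?_))
  field_simp

/-- the sum in the proportional terms -/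
theorem mobG {CM : ℝ} (hCM : 0 < CM) (hM : ∀ g : ℕ, 1 ≤ g → ∀ t : ℝ, 1 ≤ t →
      |∑ j ∈ (Icc 1 ⌊t⌋₊).filter (fun j => Nat.Coprime j g),
        (ArithmeticFunction.moebius j : ℝ) / j * Real.log (t / j)| ≤ CM * (g / Nat.totient g))
    {B : ℝ} {G : ℝ → ℂ} (hG : WG B G) {κ L y : ℝ} (hκ : 0 < κ) (hκ1 : κ ≤ 1) (hL : 0 < L)
    (hy : Real.log y = κ * L) (hy0 : 0 < y) (b : ℝ) (l0 : ℕ) (hl0 : 1 ≤ l0) (hl0y : (l0 : ℝ) ≤ y)
    (g : ℕ) (hg : 1 ≤ g) :
    ‖∑ j ∈ (Icc 1 ⌊y / l0⌋₊).filter (fun j => Nat.Coprime j g),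
      (((ArithmeticFunction.moebius j : ℝ) / j : ℝ) : ℂ) *
        (((1 - (Real.log j / L + Real.log l0 / L) / κ : ℝ) : ℂ) *
          G (Real.log j / L + b))‖ ≤
      CM * (g / Nat.totient g) * (4 * B / κ) / L := by
  have hl0r : (0 : ℝ) < l0 := by exact_mod_cast hl0
  have hl0r1 : (1 : ℝ) ≤ l0 := by exact_mod_cast hl0
  have hB : 0 ≤ B := le_trans (norm_nonneg _) (hG.b0 0)
  obtain ⟨c, hc⟩ : ∃ c, c = Real.log l0 / L := ⟨_, rfl⟩
  have hc0 : 0 ≤ c := by rw [hc]; exact div_nonneg (Real.log_nonneg hl0r1) hL.le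
  have hT : 1 ≤ y / l0 := by rw [le_div_iff₀ hl0r]; linarith
  have hw : Real.log (y / l0) / L = κ - c := by
    rw [Real.log_div hy0.ne' hl0r.ne', hy, hc]
    field_simp
  have hd1 : ∀ v, HasDerivAt G (deriv G v) v := fun v =>
    (hG.smooth.differentiable (by simp)).differentiableAt.hasDerivAt
  have hsm : ContDiff ℝ ((⊤ : ℕ∞) : WithTop ℕ∞) (deriv G) := by
    have := contDiff_infty_iff_deriv.1 hG.smooth
    exact this.2
  have hd2 : ∀ v, HasDerivAt (deriv G) (deriv (deriv G) v) v := fun v =>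
    (hsm.differentiable (by simp)).differentiableAt.hasDerivAt
  have hsm2 : ContDiff ℝ ((⊤ : ℕ∞) : WithTop ℕ∞) (deriv (deriv G)) := by
    have := contDiff_infty_iff_deriv.1 hsm
    exact this.2
  have hcc : Continuous G := hG.smooth.continuous
  have hcc1 : Continuous (deriv G) := hsm.continuous
  have hcc2 : Continuous (deriv (deriv G)) := hsm2.continuous
  have hlin : ∀ v : ℝ, HasDerivAt (fun v : ℝ => ((1 - (v + c) / κ : ℝ) : ℂ))
      ((-(1 / κ) : ℝ) : ℂ) v := by
    intro v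
    apply HasDerivAt.ofReal_comp
    have h1 := (((hasDerivAt_id v).add_const c).div_const κ).const_sub 1
    exact h1
  have hsh : ∀ (f f' : ℝ → ℂ), (∀ v, HasDerivAt f (f' v) v) → ∀ v,
      HasDerivAt (fun v : ℝ => f (v + b)) (f' (v + b)) v := by
    intro f f' hf v
    exact (hf (v + b)).comp_add_const v b
  have key := mobF hM (fun v => ((1 - (v + c) / κ : ℝ) : ℂ) * G (v + b))
    (fun v => ((-(1 / κ) : ℝ) : ℂ) * G (v + b) + ((1 - (v + c) / κ : ℝ) : ℂ) * deriv G (v + b))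
    (fun v => ((-(1 / κ) : ℝ) : ℂ) * deriv G (v + b) +
      (((-(1 / κ) : ℝ) : ℂ) * deriv G (v + b) +
        ((1 - (v + c) / κ : ℝ) : ℂ) * deriv (deriv G) (v + b)))
    (fun v => (hlin v).mul (hsh G (deriv G) hd1 v))
    (fun v => ((hsh G (deriv G) hd1 v).const_mul _).add
      ((hlin v).mul (hsh (deriv G) (deriv (deriv G)) hd2 v)))
    (by fun_prop) (L := L) (T := y / l0) (B1 := B / κ) (B2 := 2 * B / κ + B) hL hT
    (by
      rw [hw]
      have : 1 - (κ - c + c) / κ = 0 := by field_simp; ring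
      rw [this]; simp)
    (by
      rw [hw]
      have : 1 - (κ - c + c) / κ = 0 := by field_simp; ring
      rw [this]
      simp only [Complex.ofReal_zero, zero_mul, add_zero]
      rw [norm_mul, Complex.norm_real, Real.norm_eq_abs, abs_neg, abs_of_pos (by positivity)]
      calc 1 / κ * ‖G (κ - c + b)‖ ≤ 1 / κ * B :=
            mul_le_mul_of_nonneg_left (hG.b0 _) (by positivity)
        _ = B / κ := by ring)
    (by
      intro v hv0 hv1
      rw [hw] at hv1
      have h5 : |1 - (v + c) / κ| ≤ 1 := by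
        have h6 : (v + c) / κ ≤ 1 := by rw [div_le_one hκ]; linarith
        have h7 : 0 ≤ (v + c) / κ := by positivity
        rw [abs_le]; constructor <;> linarith
      have h8 : ‖((-(1 / κ) : ℝ) : ℂ) * deriv G (v + b)‖ ≤ B / κ := by
        rw [norm_mul, Complex.norm_real, Real.norm_eq_abs, abs_neg, abs_of_pos (by positivity)]
        calc 1 / κ * ‖deriv G (v + b)‖ ≤ 1 / κ * B :=
              mul_le_mul_of_nonneg_left (hG.b1 _) (by positivity)
          _ = B / κ := by ring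
      have h9 : ‖((1 - (v + c) / κ : ℝ) : ℂ) * deriv (deriv G) (v + b)‖ ≤ B := by
        rw [norm_mul, Complex.norm_real, Real.norm_eq_abs]
        calc |1 - (v + c) / κ| * ‖deriv (deriv G) (v + b)‖ ≤ 1 * B :=
              mul_le_mul h5 (hG.b2 _) (norm_nonneg _) zero_le_one
          _ = B := one_mul B
      refine (norm_add_le _ _).trans ?_
      refine (add_le_add h8 ((norm_add_le _ _).trans (add_le_add h8 h9))).trans (le_of_eq ?_)
      ring) g hg
  rw [hw] at key
  rw [← hc]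
  refine key.trans ?_
  apply div_le_div_of_nonneg_right _ hL.le
  apply mul_le_mul_of_nonneg_left _ (by positivity)
  have h10 : (κ - c) * (2 * B / κ + B) ≤ κ * (2 * B / κ + B) :=
    mul_le_mul_of_nonneg_right (by linarith) (by positivity)
  have h11 : κ * (2 * B / κ + B) = 2 * B + κ * B := by field_simp
  have h12 : B ≤ B / κ := by rw [le_div_iff₀ hκ]; nlinarith
  have h13 : κ * B ≤ B := by nlinarith
  have h14 : 4 * B / κ = B / κ + 3 * (B / κ) := by ring
  rw [h14]
  linarith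

end Pool.Agent.Y764.R10
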